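import Mathlib

/-! Few linear functionals that do not vanish at any of finitely many given points. -/

open Finset

namespace Pool.Agent.H519Z.FLM

lemma card_bad_line (q : ℕ) {a c τ : ℝ} (ha : 1 / 2 ≤ |a|) (hτ : 1 ≤ τ * q) :
    (((univ : Finset (Fin q)).filter fun t : Fin q => |((t : ℕ) : ℝ) / q * a + c| ≤ τ).card : ℝ)
      ≤ 5 * τ * q := by
  classical
  set S := (univ : Finset (Fin q)).filter fun t : Fin q => |((t : ℕ) : ℝ) / q * a + c| ≤ τ with hS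
  have hq : (0 : ℝ) < q := by
    rcases Nat.eq_zero_or_pos q with h | h
    · subst h; simp at hτ; linarith
    · exact_mod_cast h
  rcases S.eq_empty_or_nonempty with h | h
  · rw [h]; simp only [card_empty, Nat.cast_zero]; nlinarith
  let t0 := S.min' h
  have ht0 : t0 ∈ S := S.min'_mem h
  have hsub : S.image (fun t : Fin q => (t : ℕ)) ⊆ Icc (t0 : ℕ) (t0 + ⌊4 * τ * q⌋₊) := by
    intro n hn
    obtain ⟨t, ht, rfl⟩ := mem_image.1 hn
    have h1 : t0 ≤ t := S.min'_le t ht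
    have h1' : (t0 : ℕ) ≤ t := h1
    have h2 := (mem_filter.1 ht).2
    have h3 := (mem_filter.1 ht0).2
    have h4 : |((t : ℝ) - t0) / q * a| ≤ 2 * τ := by
      have e : ((t : ℝ) - t0) / q * a = ((t : ℝ) / q * a + c) - ((t0 : ℝ) / q * a + c) := by ring
      rw [e]
      refine (abs_sub _ _).trans ?_
      linarith
    have h5 : (0 : ℝ) ≤ (t : ℝ) - t0 := by
      have : ((t0 : ℕ) : ℝ) ≤ (t : ℕ) := by exact_mod_cast h1'
      linarith
    rw [abs_mul, abs_of_nonneg (div_nonneg h5 hq.le)] at h4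
    have h6 : ((t : ℝ) - t0) / q * (1 / 2) ≤ 2 * τ :=
      (mul_le_mul_of_nonneg_left ha (div_nonneg h5 hq.le)).trans h4
    have h7 : (t : ℝ) - t0 ≤ 4 * τ * q := by
      rw [← div_le_iff₀ hq]; linarith
    have h8 : (t : ℕ) - (t0 : ℕ) ≤ ⌊4 * τ * q⌋₊ := by
      apply Nat.le_floor
      rw [Nat.cast_sub h1']
      exact h7
    rw [mem_Icc]; omega
  have h1 := card_le_card hsub
  rw [card_image_of_injective _ Fin.val_injective, Nat.card_Icc] at h1
  have h2 : S.card ≤ ⌊4 * τ * q⌋₊ + 1 := by omega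
  have h3 : (S.card : ℝ) ≤ (⌊4 * τ * q⌋₊ : ℝ) + 1 := by exact_mod_cast h2
  have h4 : (⌊4 * τ * q⌋₊ : ℝ) ≤ 4 * τ * q := Nat.floor_le (by nlinarith)
  linarith

lemma card_bad_grid {H : Type*} [Fintype H] [DecidableEq H] (q : ℕ) {τ : ℝ} (hτ : 1 ≤ τ * q)
    (g : H → ℝ) (hg : ∃ h, 1 / 2 ≤ |g h|) :
    ∑ l : H → Fin q, (if |∑ h, (l h : ℝ) / q * g h| ≤ τ then (1 : ℝ) else 0)
      ≤ 5 * τ * Fintype.card (H → Fin q) := by
  obtain ⟨h0, hh0⟩ := hg
  let e := Equiv.piSplitAt h0 (fun _ : H => Fin q)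
  rw [← e.symm.sum_comp, Fintype.sum_prod_type_right, Fintype.card_congr e, Fintype.card_prod,
    Fintype.card_fin]
  have key : ∀ y : {j // j ≠ h0} → Fin q,
      ∑ t : Fin q, (if |∑ h, ((e.symm (t, y)) h : ℝ) / q * g h| ≤ τ then (1 : ℝ) else 0)
        ≤ 5 * τ * q := by
    intro y
    have h1 : ∀ t : Fin q, ∑ h, ((e.symm (t, y)) h : ℝ) / q * g h
        = (t : ℝ) / q * g h0 + ∑ j : {j // j ≠ h0}, (y j : ℝ) / q * g j := by
      intro t
      rw [Fintype.sum_eq_add_sum_subtype_ne _ h0]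
      congr 1
      · simp [e]
      · refine sum_congr rfl fun j _ => ?_
        simp [e, j.2]
    simp only [h1]
    rw [sum_boole]
    exact card_bad_line q hh0 hτ
  refine (sum_le_sum fun y _ => key y).trans ?_
  rw [sum_const, nsmul_eq_mul, card_univ]
  push_cast
  apply le_of_eq; ring

lemma one_row {H ι : Type*} [Fintype H] {τ : ℝ} (hτ : 0 < τ) (g : ι → H → ℝ)
    (hg : ∀ i, ∃ h, 1 / 2 ≤ |g i h|) (S : Finset ι) :
    ∃ l : H → ℝ, (∀ h, |l h| ≤ 1) ∧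
      ((S.filter fun i => |∑ h, l h * g i h| ≤ τ).card : ℝ) ≤ 5 * τ * S.card := by
  classical
  let q : ℕ := ⌈1 / τ⌉₊
  have hq1 : 1 ≤ τ * q := by
    have : 1 / τ ≤ q := Nat.le_ceil _
    rw [div_le_iff₀ hτ] at this
    linarith
  have hq0 : 0 < q := Nat.ceil_pos.2 (by positivity)
  have hq0' : (0 : ℝ) < q := by exact_mod_cast hq0
  have : Nonempty (Fin q) := ⟨⟨0, hq0⟩⟩
  have h1 : ∑ l : H → Fin q, ((S.filter fun i => |∑ h, (l h : ℝ) / q * g i h| ≤ τ).card : ℝ)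
      ≤ ∑ _l : H → Fin q, 5 * τ * S.card := by
    simp only [← sum_boole]
    rw [sum_comm]
    refine (sum_le_sum fun i _ => card_bad_grid q hq1 (g i) (hg i)).trans ?_
    rw [sum_const, sum_const, nsmul_eq_mul, nsmul_eq_mul, card_univ]
    apply le_of_eq; ring
  obtain ⟨l, -, hl⟩ := exists_le_of_sum_le univ_nonempty h1
  refine ⟨fun h => (l h : ℝ) / q, fun h => ?_, hl⟩
  rw [abs_of_nonneg (by positivity), div_le_one hq0']
  exact_mod_cast (l h).2.le

lemma many_rows {H ι : Type*} [Fintype H] {τ : ℝ} (hτ : 0 < τ) (g : ι → H → ℝ)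
    (hg : ∀ i, ∃ h, 1 / 2 ≤ |g i h|) (S : Finset ι) (K : ℕ) :
    ∃ l : Fin K → H → ℝ, (∀ j h, |l j h| ≤ 1) ∧
      ((S.filter fun i => ∀ j, |∑ h, l j h * g i h| ≤ τ).card : ℝ) ≤ (5 * τ) ^ K * S.card := by
  classical
  induction K with
  | zero => exact ⟨fun j => j.elim0, fun j => j.elim0, by simp⟩
  | succ K ih =>
    obtain ⟨l, hl1, hl2⟩ := ih
    obtain ⟨l0, hl01, hl02⟩ := one_row hτ g hg (S.filter fun i => ∀ j, |∑ h, l j h * g i h| ≤ τ)
    refine ⟨Fin.cons l0 l, fun j => Fin.cases hl01 (fun j => hl1 j) j, ?_⟩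
    have h1 : (S.filter fun i => ∀ j : Fin (K + 1),
          |∑ h, (Fin.cons l0 l : Fin (K + 1) → H → ℝ) j h * g i h| ≤ τ)
        = (S.filter fun i => ∀ j, |∑ h, l j h * g i h| ≤ τ).filter
            fun i => |∑ h, l0 h * g i h| ≤ τ := by
      ext i
      simp only [mem_filter, Fin.forall_fin_succ, Fin.cons_zero, Fin.cons_succ]
      tauto
    rw [h1]
    refine hl02.trans ?_
    rw [pow_succ]
    have : 0 ≤ 5 * τ := by positivity
    nlinarith

lemma exists_rows {H : Type*} [Fintype H] {τ : ℝ} (hτ : 0 < τ) {m K : ℕ} (g : Fin m → H → ℝ)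
    (hg : ∀ i, ∃ h, 1 / 2 ≤ |g i h|) (hm : (5 * τ) ^ K * m < 1) :
    ∃ l : Fin K → H → ℝ, (∀ j h, |l j h| ≤ 1) ∧ ∀ i, ∃ j, τ < |∑ h, l j h * g i h| := by
  classical
  obtain ⟨l, hl1, hl2⟩ := many_rows hτ g hg univ K
  refine ⟨l, hl1, fun i => ?_⟩
  rw [card_univ, Fintype.card_fin] at hl2
  have h1 : ((univ : Finset (Fin m)).filter fun i => ∀ j, |∑ h, l j h * g i h| ≤ τ).card < 1 := by
    exact_mod_cast hl2.trans_lt hm
  by_contra hcon
  push Not at hcon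
  have : 0 < ((univ : Finset (Fin m)).filter fun i => ∀ j, |∑ h, l j h * g i h| ≤ τ).card :=
    card_pos.2 ⟨i, mem_filter.2 ⟨mem_univ _, hcon⟩⟩
  omega

end Pool.Agent.H519Z.FLM
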