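import Pool.Agent.H519Z.FLM.Gibbs
import Pool.Agent.H519Z.FLM.Proj

/-! An odd map of small target dimension on the sign complex of a matrix. -/

open Finset Filter Topology

namespace Pool.Agent.H519Z.FLM

variable {E H : Type*} [Fintype E] [Fintype H]

noncomputable def act (τ : E ≃ E) (u : EuclideanSpace ℝ E) : EuclideanSpace ℝ E :=
  WithLp.toLp 2 fun e => u (τ e)

omit [Fintype H] in
lemma ell_act {A : H → E → ℝ} {τ : E ≃ E} (hE : ∀ h e, A h (τ e) = -A h e)
    (u : EuclideanSpace ℝ E) (h : H) : ell A (act τ u) h = -ell A u h := by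
  unfold ell
  rw [← τ.sum_comp (fun e => A h e * u e ^ 2), ← sum_neg_distrib]
  refine sum_congr rfl fun e _ => ?_
  rw [hE]
  change A h e * u (τ e) ^ 2 = _
  ring

omit [Fintype H] in
lemma ell_tau {A : H → E → ℝ} {τ : H ≃ H} (hH : ∀ h e, A (τ h) e = -A h e)
    (u : EuclideanSpace ℝ E) (h : H) : ell A u (τ h) = -ell A u h := by
  unfold ell
  rw [← sum_neg_distrib]
  refine sum_congr rfl fun e _ => ?_
  rw [hH]; ring

lemma norm_act (τ : E ≃ E) (u : EuclideanSpace ℝ E) : ‖act τ u‖ = ‖u‖ := by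
  rw [EuclideanSpace.norm_eq, EuclideanSpace.norm_eq, ← τ.sum_comp (fun e => ‖u e‖ ^ 2)]
  rfl

lemma gb_act {A : H → E → ℝ} {τE : E ≃ E} {τH : H ≃ H} (hE : ∀ h e, A h (τE e) = -A h e)
    (hH : ∀ h e, A (τH h) e = -A h e) (β : ℝ) (u : EuclideanSpace ℝ E) :
    gb A β (act τE u) = act τH (gb A β u) := by
  have h1 : raw A β (act τE u) = act τH (raw A β u) := by
    ext h
    change Real.exp (β * ell A (act τE u) h / 2) = Real.exp (β * ell A u (τH h) / 2)
    rw [ell_act hE, ell_tau hH]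
  unfold gb
  rw [h1, norm_act]
  rfl

lemma col_init {Ω : Type} (f : Ω → EuclideanSpace ℝ E) (hf : ∀ a, ‖f a‖ = 1) {r : ℝ}
    (hr : 0 < r) : ∃ m, Col f m r := by
  have hK : IsCompact (Metric.closedBall (0 : EuclideanSpace ℝ E) 1) := isCompact_closedBall _ _
  obtain ⟨t, ht, hcov⟩ := Metric.totallyBounded_iff.1 hK.totallyBounded (r / 2) (half_pos hr)
  have : Fintype t := ht.fintype
  have h1 : ∀ a, ∃ y : t, dist (f a) y < r / 2 := by
    intro a
    have : f a ∈ Metric.closedBall (0 : EuclideanSpace ℝ E) 1 := by simp [hf a]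
    obtain ⟨y, hy, hy'⟩ := Set.mem_iUnion₂.1 (hcov this)
    exact ⟨⟨y, hy⟩, hy'⟩
  choose y hy using h1
  refine ⟨Fintype.card t, fun a => Fintype.equivFin t (y a), fun a b hab => ?_⟩
  have h2 : y a = y b := (Fintype.equivFin t).injective hab
  have h3 := hy a
  have h4 := hy b
  rw [← h2] at h4
  linarith [dist_triangle_right (f a) (f b) (y a)]

theorem core_aux [Nonempty E] [Nonempty H] {A : H → E → ℝ} (hA : ∀ h e, |A h e| ≤ 1)
    {β β' : ℝ} (hβ : 0 < β) (hβ' : 0 < β')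
    (h1 : 4 * Real.log (Fintype.card H) ≤ β) (h2 : 4 * Real.log (Fintype.card E) ≤ β')
    {k : ℕ} (hk : 200 * β * β' ≤ k) {Ω : Type} (f : Ω → EuclideanSpace ℝ E)
    (hf : ∀ a, ‖f a‖ = 1) (hf' : ∀ a, ∃ h, ell A (f a) h = 1) :
    ∃ (n : ℕ) (l : Fin (8 * k) → H → ℝ), ∀ a, ∃ j,
      ∑ h, l j h * ell A ((fun u => gb (fun e h => A h e) β' (gb A β u))^[n] (f a)) h ≠ 0 := by
  classical
  set T : EuclideanSpace ℝ E → EuclideanSpace ℝ E :=
    fun u => gb (fun e h => A h e) β' (gb A β u) with hT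
  have hk0 : (0 : ℝ) < k := lt_of_lt_of_le (by positivity) hk
  have hk1 : 1 ≤ k := by exact_mod_cast hk0
  have hs0 : 0 < √(k : ℝ) := Real.sqrt_pos.2 hk0
  obtain ⟨r1, hr1, st1⟩ := step hA hβ hk1
  obtain ⟨r2, hr2, st2⟩ := step (A := fun e h => A h e) (fun e h => hA h e) hβ' hk1
  set θ : ℝ := 10 * β / √k with hθ
  have hθ0 : 0 < θ := by positivity
  let r0 : ℝ := min r1 (r2 / θ)
  have hr0 : 0 < r0 := by positivity
  obtain ⟨m0, hm0⟩ := col_init f hf hr0
  have hunit : ∀ n a, ‖T^[n] (f a)‖ = 1 := by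
    intro n a
    cases n with
    | zero => exact hf a
    | succ n => rw [Function.iterate_succ_apply']; exact gb_norm _ _ _
  have hpot : ∀ n a, 1 ≤ pot A β β' (T^[n] (f a)) := by
    intro n a
    induction n with
    | zero => exact pot_init A hβ hβ' (hf a) (hf' a)
    | succ n ih =>
      rw [Function.iterate_succ_apply']
      exact ih.trans ((pot_gb A hβ hβ' (hunit n a)).trans
        (pot_gb (fun e h => A h e) hβ' hβ (gb_norm _ _ _)))
  have hcol : ∀ n, Col (fun a => T^[n] (f a)) (m0 * (12 ^ k * 12 ^ k) ^ n) (r0 * (1 / 2) ^ n) := by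
    intro n
    induction n with
    | zero => simpa using hm0
    | succ n ih =>
      have hp : (0 : ℝ) < (1 / 2) ^ n := by positivity
      have hp1 : ((1 : ℝ) / 2) ^ n ≤ 1 := pow_le_one₀ (by norm_num) (by norm_num)
      have hle : r0 * (1 / 2) ^ n ≤ r0 := by nlinarith
      have a1 := st1 _ (mul_pos hr0 hp) (hle.trans (min_le_left _ _)) _ (hunit n) _ ih
      have hle2 : θ * (r0 * (1 / 2) ^ n) ≤ r2 := by
        have : r0 * (1 / 2) ^ n ≤ r2 / θ := hle.trans (min_le_right _ _)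
        rw [le_div_iff₀ hθ0] at this
        linarith
      have a2 := st2 _ (mul_pos hθ0 (mul_pos hr0 hp)) hle2 _ (fun a => gb_norm _ _ _) _ a1
      have e : m0 * (12 ^ k * 12 ^ k) ^ (n + 1) = m0 * (12 ^ k * 12 ^ k) ^ n * 12 ^ k * 12 ^ k := by
        ring
      rw [e]
      simp only [Function.iterate_succ_apply']
      refine a2.mono ?_
      have e2 : 10 * β' / √k * θ = 100 * β * β' / k := by
        rw [hθ, div_mul_div_comm, Real.mul_self_sqrt hk0.le]; ring
      have e3 : 100 * β * β' / k ≤ 1 / 2 := by rw [div_le_iff₀ hk0]; linarith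
      rw [← mul_assoc, e2, pow_succ]
      nlinarith [mul_pos hr0 hp]
  set M : ℝ := (Fintype.card H : ℝ) with hM
  have hM0 : 0 < M := by rw [hM]; exact_mod_cast Fintype.card_pos
  have hlim : Tendsto (fun n : ℕ => (10 * M * r0) ^ (8 * k) * m0 * ((144 / 256 : ℝ) ^ k) ^ n)
      atTop (𝓝 ((10 * M * r0) ^ (8 * k) * m0 * 0)) :=
    (tendsto_pow_atTop_nhds_zero_of_lt_one (by positivity)
      (pow_lt_one₀ (by norm_num) (by norm_num) (by omega))).const_mul _
  rw [mul_zero] at hlim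
  obtain ⟨n, hn⟩ := (hlim.eventually (gt_mem_nhds one_pos)).exists
  obtain ⟨c, hc⟩ := hcol n
  rcases isEmpty_or_nonempty Ω with hΩ | hΩ
  · exact ⟨0, fun _ _ => 0, fun a => isEmptyElim a⟩
  let g : Fin (m0 * (12 ^ k * 12 ^ k) ^ n) → H → ℝ :=
    fun i h => ell A (T^[n] (f (Function.invFun c i))) h
  have hg : ∀ i, ∃ h, 1 / 2 ≤ |g i h| := by
    intro i
    obtain ⟨h, hh⟩ := pot_final A hβ hβ' h1 h2 (hunit n _) (hpot n (Function.invFun c i))
    exact ⟨h, hh.trans (le_abs_self _)⟩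
  have hτ : 0 < 2 * M * (r0 * (1 / 2) ^ n) := by positivity
  have hm : (5 * (2 * M * (r0 * (1 / 2) ^ n))) ^ (8 * k)
      * ((m0 * (12 ^ k * 12 ^ k) ^ n : ℕ) : ℝ) < 1 := by
    refine lt_of_eq_of_lt ?_ hn
    have e1 : (5 * (2 * M * (r0 * (1 / 2) ^ n))) = (10 * M * r0) * (1 / 2) ^ n := by ring
    have e2 : (((1 / 2 : ℝ)) ^ n) ^ (8 * k) * ((12 : ℝ) ^ k * 12 ^ k) ^ n
        = ((144 / 256 : ℝ) ^ k) ^ n := by
      rw [← pow_mul, mul_comm n, pow_mul, ← mul_pow, pow_mul, ← mul_pow, ← mul_pow]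
      norm_num
    rw [e1, mul_pow, ← e2]
    push_cast
    ring
  obtain ⟨l, hl1, hl2⟩ := exists_rows hτ g hg hm
  refine ⟨n, l, fun a => ?_⟩
  obtain ⟨j, hj⟩ := hl2 (c a)
  refine ⟨j, fun h0 => ?_⟩
  have hd := hc (Function.invFun c (c a)) a (Function.invFun_eq ⟨a, rfl⟩)
  have h3 : |∑ h, l j h * g (c a) h - ∑ h, l j h * ell A (T^[n] (f a)) h|
      ≤ 2 * M * (r0 * (1 / 2) ^ n) := by
    rw [← sum_sub_distrib]
    refine (abs_sum_le_sum_abs _ _).trans ?_
    have h4 : ∀ h, |l j h * g (c a) h - l j h * ell A (T^[n] (f a)) h|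
        ≤ 2 * (r0 * (1 / 2) ^ n) := by
      intro h
      rw [← mul_sub, abs_mul]
      have h5 := ell_lip hA (hunit n a) (hunit n (Function.invFun c (c a))) h
      calc _ ≤ 1 * (2 * (r0 * (1 / 2) ^ n)) :=
            mul_le_mul (hl1 j h) (h5.trans (by linarith)) (abs_nonneg _) zero_le_one
        _ = _ := one_mul _
    refine (sum_le_sum fun h _ => h4 h).trans (le_of_eq ?_)
    rw [sum_const, nsmul_eq_mul, card_univ, ← hM]; ring
  rw [h0, sub_zero] at h3
  linarith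

theorem core (E H : Type) [Fintype E] [Fintype H] (A : H → E → ℝ) (hA : ∀ h e, |A h e| ≤ 1)
    (τE : E ≃ E) (τH : H ≃ H) (hE : ∀ h e, A h (τE e) = -A h e)
    (hH : ∀ h e, A (τH h) e = -A h e) (cE : 2 ≤ Fintype.card E) (cH : 2 ≤ Fintype.card H) :
    ∃ n : ℕ, (n + 1 : ℝ) ≤ 26000 * Real.log (Fintype.card E) * Real.log (Fintype.card H) ∧
      ∃ G : (E → ℝ) → Fin (n + 1) → ℝ, Continuous G ∧ (∀ x, G (fun e => x (τE e)) = -G x) ∧
        ∀ x : E → ℝ, (∀ e, 0 ≤ x e) → ∑ e, x e = 1 → (∃ h, ∑ e, A h e * x e = 1) → G x ≠ 0 := by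
  have : Nonempty E := Fintype.card_pos_iff.1 (by omega)
  have : Nonempty H := Fintype.card_pos_iff.1 (by omega)
  have hl2 : (1 / 2 : ℝ) < Real.log 2 := by linarith [Real.log_two_gt_d9]
  have lE : 1 / 2 < Real.log (Fintype.card E) :=
    hl2.trans_le (Real.log_le_log two_pos (by exact_mod_cast cE))
  have lH : 1 / 2 < Real.log (Fintype.card H) :=
    hl2.trans_le (Real.log_le_log two_pos (by exact_mod_cast cH))
  set a := Real.log (Fintype.card E) with ha
  set b := Real.log (Fintype.card H) with hb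
  have hab : 1 / 4 < a * b := by nlinarith
  set k : ℕ := ⌈200 * (4 * b) * (4 * a)⌉₊ with hk
  have hk1 : 200 * (4 * b) * (4 * a) ≤ k := Nat.le_ceil _
  have hk2 : (k : ℝ) < 200 * (4 * b) * (4 * a) + 1 := Nat.ceil_lt_add_one (by nlinarith)
  have hk0 : 0 < k := Nat.ceil_pos.2 (by nlinarith)
  let sq : (E → ℝ) → EuclideanSpace ℝ E := fun x => WithLp.toLp 2 fun e => √(x e)
  let Ω : Type := {x : E → ℝ // (∀ e, 0 ≤ x e) ∧ ∑ e, x e = 1 ∧ ∃ h, ∑ e, A h e * x e = 1}
  have hsq : ∀ (x : Ω) e, sq x.1 e ^ 2 = x.1 e := fun x e => Real.sq_sqrt (x.2.1 e)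
  have hf : ∀ x : Ω, ‖sq x.1‖ = 1 := by
    intro x
    rw [EuclideanSpace.norm_eq]
    simp only [Real.norm_eq_abs, sq_abs, hsq]
    rw [x.2.2.1, Real.sqrt_one]
  have hf' : ∀ x : Ω, ∃ h, ell A (sq x.1) h = 1 := by
    intro x
    obtain ⟨h, hh⟩ := x.2.2.2
    refine ⟨h, ?_⟩
    unfold ell
    simp only [hsq]
    exact hh
  obtain ⟨n, l, hl⟩ := core_aux hA (β := 4 * b) (β' := 4 * a) (by linarith) (by linarith) le_rfl
    le_rfl hk1 (fun x : Ω => sq x.1) hf hf'
  set T : EuclideanSpace ℝ E → EuclideanSpace ℝ E :=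
    fun u => gb (fun e h => A h e) (4 * a) (gb A (4 * b) u) with hT
  have hTc : Continuous T := (continuous_gb _ _).comp (continuous_gb _ _)
  have hTa : ∀ m u, T^[m] (act τE u) = act τE (T^[m] u) := by
    intro m u
    induction m with
    | zero => rfl
    | succ m ih =>
      rw [Function.iterate_succ_apply', Function.iterate_succ_apply', ih, hT]
      simp only
      rw [gb_act hE hH, gb_act (A := fun e h => A h e) (τE := τH) (τH := τE)
        (fun e h => hH h e) (fun e h => hE h e)]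
  have hsqc : Continuous sq :=
    (PiLp.continuous_toLp 2 _).comp (continuous_pi fun e => by fun_prop)
  obtain ⟨n', hn'⟩ : ∃ n', 8 * k = n' + 1 := ⟨8 * k - 1, by omega⟩
  refine ⟨n', ?_, fun x j => ∑ h, l (j.cast hn'.symm) h * ell A (T^[n] (sq x)) h, ?_, ?_, ?_⟩
  · have : ((8 * k : ℕ) : ℝ) = n' + 1 := by exact_mod_cast hn'
    push_cast at this
    nlinarith
  · refine continuous_pi fun j => continuous_finsetSum _ fun h _ => continuous_const.mul ?_
    exact (continuous_ell A h).comp ((hTc.iterate n).comp hsqc)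
  · intro x
    funext j
    have e : sq (fun e => x (τE e)) = act τE (sq x) := rfl
    simp only [Pi.neg_apply]
    rw [e, hTa, ← sum_neg_distrib]
    refine sum_congr rfl fun h _ => ?_
    rw [ell_act hE]; ring
  · intro x h1 h2 h3 h0
    obtain ⟨j, hj⟩ := hl ⟨x, h1, h2, h3⟩
    exact hj (congrFun h0 (j.cast hn'))

end Pool.Agent.H519Z.FLM
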