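import Mathlib

/-! Covering the image of a ball under a linear map of bounded Hilbert-Schmidt norm. -/

open Finset

namespace Pool.Agent.H519Z.FLM

/-- `f` takes the points of each of `m` colour classes to points at distance at most `r`. -/
def Col {Ω V : Type*} [PseudoMetricSpace V] (f : Ω → V) (m : ℕ) (r : ℝ) : Prop :=
  ∃ c : Ω → Fin m, ∀ a b, c a = c b → dist (f a) (f b) ≤ r

lemma Col.mono {Ω V : Type*} [PseudoMetricSpace V] {f : Ω → V} {m : ℕ} {r s : ℝ}
    (h : Col f m r) (hrs : r ≤ s) : Col f m s := by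
  obtain ⟨c, hc⟩ := h
  exact ⟨c, fun a b hab => (hc a b hab).trans hrs⟩

lemma sum_half_pow_abs (m : ℕ) :
    ∑ t ∈ Icc (-(m : ℤ)) m, (1 / 2 : ℝ) ^ t.natAbs = 3 - 2 * (1 / 2 : ℝ) ^ m := by
  induction m with
  | zero => simp; norm_num
  | succ m ih =>
    have h : Icc (-((m + 1 : ℕ) : ℤ)) ((m + 1 : ℕ) : ℤ)
        = insert (-((m + 1 : ℕ) : ℤ)) (insert ((m + 1 : ℕ) : ℤ) (Icc (-(m : ℤ)) m)) := by
      ext t
      simp only [mem_Icc, mem_insert]
      omega
    rw [h, sum_insert, sum_insert, ih]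
    · simp only [Int.natAbs_neg, Int.natAbs_natCast]
      rw [pow_succ]; ring
    · simp only [mem_Icc]; omega
    · simp only [mem_Icc, mem_insert]; omega

/-- integer vectors supported in `I` of `ℓ¹` norm at most `m` -/
noncomputable def latt {ι : Type*} [Fintype ι] [DecidableEq ι] (I : Finset ι) (m : ℕ) :
    Finset (ι → ℤ) :=
  (Fintype.piFinset fun i => if i ∈ I then Icc (-(m : ℤ)) m else {0}).filter
    fun z => ∑ i, (z i).natAbs ≤ m

lemma card_latt {ι : Type*} [Fintype ι] [DecidableEq ι] (I : Finset ι) (m : ℕ) :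
    (latt I m).card ≤ 2 ^ m * 3 ^ I.card := by
  have h1 : ((latt I m).card : ℝ) * (1 / 2 : ℝ) ^ m
      ≤ ∑ z ∈ latt I m, ∏ i, (1 / 2 : ℝ) ^ (z i).natAbs := by
    rw [← nsmul_eq_mul]
    refine card_nsmul_le_sum _ _ _ fun z hz => ?_
    rw [prod_pow_eq_pow_sum]
    exact pow_le_pow_of_le_one (by norm_num) (by norm_num) (mem_filter.1 hz).2
  have h2 : ∑ z ∈ latt I m, ∏ i, (1 / 2 : ℝ) ^ (z i).natAbs
      ≤ ∑ z ∈ Fintype.piFinset (fun i => if i ∈ I then Icc (-(m : ℤ)) m else {0}),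
          ∏ i, (1 / 2 : ℝ) ^ (z i).natAbs :=
    sum_le_sum_of_subset_of_nonneg (filter_subset _ _) fun _ _ _ => by positivity
  rw [← prod_univ_sum (fun i => if i ∈ I then Icc (-(m : ℤ)) m else {0})
    (fun _ t => (1 / 2 : ℝ) ^ t.natAbs)] at h2
  have h3 : ∏ i : ι, ∑ t ∈ (if i ∈ I then Icc (-(m : ℤ)) m else {0}), (1 / 2 : ℝ) ^ t.natAbs
      ≤ ∏ i : ι, (if i ∈ I then (3 : ℝ) else 1) := by
    refine prod_le_prod (fun i _ => sum_nonneg fun _ _ => by positivity) fun i _ => ?_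
    split_ifs with hi
    · rw [sum_half_pow_abs]
      have : (0 : ℝ) ≤ (1 / 2 : ℝ) ^ m := by positivity
      linarith
    · simp
  have h4 : ∏ i : ι, (if i ∈ I then (3 : ℝ) else 1) = 3 ^ I.card := by
    rw [prod_ite_mem, univ_inter, prod_const]
  have h5 : ((latt I m).card : ℝ) * (1 / 2 : ℝ) ^ m ≤ 3 ^ I.card := by linarith
  have h6 : ((latt I m).card : ℝ) ≤ 2 ^ m * 3 ^ I.card := by
    have h7 : (0 : ℝ) < 2 ^ m := by positivity
    rw [one_div, inv_pow, ← div_eq_mul_inv, div_le_iff₀ h7] at h5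
    linarith
  exact_mod_cast h6

/-- coordinate version -/
lemma cover_diag {ι : Type*} [Fintype ι] (s : ι → ℝ) (hs : ∀ i, 0 ≤ s i) {β r : ℝ} (hβ : 0 < β)
    (hr : 0 < r) (hsum : ∑ i, s i ^ 2 ≤ β ^ 2) {k : ℕ} (hk : 1 ≤ k) :
    ∃ c : (ι → ℝ) → Fin (12 ^ k), ∀ d d' : ι → ℝ, ∑ i, d i ^ 2 ≤ r ^ 2 → ∑ i, d' i ^ 2 ≤ r ^ 2 →
      c d = c d' → ∑ i, s i ^ 2 * (d i - d' i) ^ 2 ≤ 5 * β ^ 2 * r ^ 2 / k := by
  classical
  have hk0 : (0 : ℝ) < k := by exact_mod_cast hk
  let I : Finset ι := univ.filter fun i => β ^ 2 < k * s i ^ 2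
  have hI : I.card ≤ k := by
    have h1 : (I.card : ℝ) * β ^ 2 ≤ ∑ i ∈ I, k * s i ^ 2 := by
      rw [← nsmul_eq_mul]
      exact card_nsmul_le_sum _ _ _ fun i hi => (mem_filter.1 hi).2.le
    have h2 : ∑ i ∈ I, k * s i ^ 2 ≤ ∑ i, k * s i ^ 2 :=
      sum_le_sum_of_subset_of_nonneg (subset_univ _) fun _ _ _ => by positivity
    rw [← mul_sum univ] at h2
    have h3 : (I.card : ℝ) * β ^ 2 ≤ k * β ^ 2 :=
      h1.trans (h2.trans (mul_le_mul_of_nonneg_left hsum hk0.le))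
    have h4 : (I.card : ℝ) ≤ k := le_of_mul_le_mul_right h3 (by positivity)
    exact_mod_cast h4
  have hcard : (latt I (2 * k)).card ≤ 12 ^ k := by
    refine (card_latt I (2 * k)).trans ?_
    calc 2 ^ (2 * k) * 3 ^ I.card ≤ 2 ^ (2 * k) * 3 ^ k :=
          Nat.mul_le_mul_left _ (Nat.pow_le_pow_right (by norm_num) hI)
      _ = 12 ^ k := by rw [pow_mul, ← mul_pow]; norm_num
  obtain ⟨emb⟩ : Nonempty (latt I (2 * k) ↪ Fin (12 ^ k)) :=
    Function.Embedding.nonempty_of_card_le (by simpa using hcard)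
  let lam : ℝ := k / (β * r)
  have hlam : 0 < lam := by positivity
  let z : (ι → ℝ) → ι → ℤ := fun d i => if i ∈ I then ⌊lam * (s i * d i)⌋ else 0
  have hz : ∀ d : ι → ℝ, ∑ i, d i ^ 2 ≤ r ^ 2 → z d ∈ latt I (2 * k) := by
    intro d hd
    have hcs : ∑ i, s i * |d i| ≤ β * r := by
      have h1 := sum_mul_sq_le_sq_mul_sq univ s (fun i => |d i|)
      simp only [sq_abs] at h1
      have h2 : (∑ i, s i * |d i|) ^ 2 ≤ (β * r) ^ 2 := by
        rw [mul_pow]
        exact h1.trans (mul_le_mul hsum hd (sum_nonneg fun _ _ => sq_nonneg _) (sq_nonneg _))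
      exact (pow_le_pow_iff_left₀ (sum_nonneg fun i _ => mul_nonneg (hs i) (abs_nonneg _))
        (by positivity) two_ne_zero).1 h2
    have hsumz : ∑ i, (z d i).natAbs ≤ 2 * k := by
      have h1 : ∀ i, (((z d i).natAbs : ℕ) : ℝ)
          ≤ lam * (s i * |d i|) + if i ∈ I then 1 else 0 := by
        intro i
        have h0 : 0 ≤ lam * (s i * |d i|) := mul_nonneg hlam.le (mul_nonneg (hs i) (abs_nonneg _))
        simp only [z]
        split_ifs with hi
        · rw [Nat.cast_natAbs, Int.cast_abs]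
          have e : lam * (s i * |d i|) = |lam * (s i * d i)| := by
            rw [abs_mul, abs_mul, abs_of_pos hlam, abs_of_nonneg (hs i)]
          rw [e, abs_le]
          constructor
          · linarith [Int.lt_floor_add_one (lam * (s i * d i)), neg_abs_le (lam * (s i * d i))]
          · linarith [Int.floor_le (lam * (s i * d i)), le_abs_self (lam * (s i * d i))]
        · simpa using h0
      have h2 : ((∑ i, (z d i).natAbs : ℕ) : ℝ) ≤ 2 * k := by
        push_cast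
        refine (sum_le_sum fun i _ => h1 i).trans ?_
        rw [sum_add_distrib, ← mul_sum, sum_ite_mem, univ_inter, sum_const, nsmul_eq_mul, mul_one]
        have h3 : lam * ∑ i, s i * |d i| ≤ k := by
          calc _ ≤ lam * (β * r) := mul_le_mul_of_nonneg_left hcs hlam.le
            _ = k := by simp only [lam]; field_simp
        have h4 : (I.card : ℝ) ≤ k := by exact_mod_cast hI
        linarith
      exact_mod_cast h2
    refine mem_filter.2 ⟨Fintype.mem_piFinset.2 fun i => ?_, hsumz⟩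
    have h5 : (z d i).natAbs ≤ 2 * k :=
      (single_le_sum (f := fun i => (z d i).natAbs) (fun _ _ => Nat.zero_le _) (mem_univ i)).trans
        hsumz
    split_ifs with hi
    · rw [mem_Icc]; omega
    · simp [z, hi]
  refine ⟨fun d => if h : ∑ i, d i ^ 2 ≤ r ^ 2 then emb ⟨z d, hz d h⟩ else ⟨0, by positivity⟩,
    fun d d' hd hd' hc => ?_⟩
  simp only [dif_pos hd, dif_pos hd'] at hc
  have hzz : z d = z d' := congrArg Subtype.val (emb.injective hc)
  have h1 : ∀ i, s i ^ 2 * (d i - d' i) ^ 2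
      ≤ (if i ∈ I then (β * r / k) ^ 2 else 0) + β ^ 2 / k * (2 * d i ^ 2 + 2 * d' i ^ 2) := by
    intro i
    have h0 : 0 ≤ β ^ 2 / k * (2 * d i ^ 2 + 2 * d' i ^ 2) := by positivity
    split_ifs with hi
    · have h2 := congrFun hzz i
      simp only [z, if_pos hi] at h2
      have h3 := Int.abs_sub_lt_one_of_floor_eq_floor h2
      rw [← mul_sub, ← mul_sub, abs_mul, abs_of_pos hlam] at h3
      have h4 : |s i * (d i - d' i)| ≤ β * r / k := by
        rw [le_div_iff₀ hk0]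
        have h5 : lam * |s i * (d i - d' i)| * (β * r) ≤ 1 * (β * r) :=
          mul_le_mul_of_nonneg_right h3.le (by positivity)
        have h6 : lam * |s i * (d i - d' i)| * (β * r) = |s i * (d i - d' i)| * k := by
          simp only [lam]; field_simp
        linarith
      have h7 : (s i * (d i - d' i)) ^ 2 ≤ (β * r / k) ^ 2 := by
        rw [← sq_abs]
        exact pow_le_pow_left₀ (abs_nonneg _) h4 2
      rw [mul_pow] at h7
      linarith
    · have h2 : k * s i ^ 2 ≤ β ^ 2 := by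
        by_contra h
        exact hi (mem_filter.2 ⟨mem_univ _, not_le.1 h⟩)
      have h3 : s i ^ 2 ≤ β ^ 2 / k := by rw [le_div_iff₀ hk0]; linarith
      have h4 : (d i - d' i) ^ 2 ≤ 2 * d i ^ 2 + 2 * d' i ^ 2 := by
        nlinarith [sq_nonneg (d i + d' i)]
      rw [zero_add]
      exact mul_le_mul h3 h4 (sq_nonneg _) (by positivity)
  refine (sum_le_sum fun i _ => h1 i).trans ?_
  rw [sum_add_distrib, ← mul_sum, sum_add_distrib, ← mul_sum, ← mul_sum, sum_ite_mem, univ_inter,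
    sum_const, nsmul_eq_mul]
  have h4 : (I.card : ℝ) ≤ k := by exact_mod_cast hI
  have h5 : (I.card : ℝ) * (β * r / k) ^ 2 ≤ k * (β * r / k) ^ 2 :=
    mul_le_mul_of_nonneg_right h4 (sq_nonneg _)
  have h6 : β ^ 2 / k * (2 * ∑ i, d i ^ 2 + 2 * ∑ i, d' i ^ 2) ≤ β ^ 2 / k * (4 * r ^ 2) :=
    mul_le_mul_of_nonneg_left (by linarith) (by positivity)
  have h7 : k * (β * r / k) ^ 2 + β ^ 2 / k * (4 * r ^ 2) = 5 * β ^ 2 * r ^ 2 / k := by
    field_simp; ring
  linarith

/-- an orthonormal basis whose images are pairwise orthogonal -/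
lemma exists_onb {V W : Type*} [NormedAddCommGroup V] [InnerProductSpace ℝ V]
    [FiniteDimensional ℝ V] [NormedAddCommGroup W] [InnerProductSpace ℝ W]
    [FiniteDimensional ℝ W] (B : V →ₗ[ℝ] W) :
    ∃ v : OrthonormalBasis (Fin (Module.finrank ℝ V)) ℝ V,
      ∀ i j, i ≠ j → inner ℝ (B (v i)) (B (v j)) = 0 := by
  have hs : (B.adjoint ∘ₗ B).IsSymmetric := B.isSymmetric_adjoint_comp_self
  refine ⟨hs.eigenvectorBasis rfl, fun i j hij => ?_⟩
  rw [← LinearMap.adjoint_inner_right]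
  have := hs.apply_eigenvectorBasis rfl j
  rw [LinearMap.comp_apply] at this
  rw [this, inner_smul_right, (hs.eigenvectorBasis rfl).orthonormal.2 hij, mul_zero]

lemma cover_lin {E H : Type*} [Fintype E] [Fintype H] (b : H → E → ℝ) {β r : ℝ} (hβ : 0 < β)
    (hr : 0 < r) (hsum : ∑ h, ∑ e, b h e ^ 2 ≤ β ^ 2) {k : ℕ} (hk : 1 ≤ k) :
    ∃ c : EuclideanSpace ℝ E → Fin (12 ^ k), ∀ d d' : EuclideanSpace ℝ E, ‖d‖ ≤ r → ‖d'‖ ≤ r →
      c d = c d' → ∑ h, (∑ e, b h e * (d e - d' e)) ^ 2 ≤ 5 * β ^ 2 * r ^ 2 / k := by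
  classical
  let B : EuclideanSpace ℝ E →ₗ[ℝ] EuclideanSpace ℝ H := Matrix.toEuclideanLin (Matrix.of b)
  have hB : ∀ (d : EuclideanSpace ℝ E) h, B d h = ∑ e, b h e * d e := fun d h => rfl
  obtain ⟨v, hv⟩ := exists_onb B
  have hs : ∑ i, ‖B (v i)‖ ^ 2 ≤ β ^ 2 := by
    refine le_trans (le_of_eq ?_) hsum
    simp only [EuclideanSpace.real_norm_sq_eq]
    rw [sum_comm]
    refine sum_congr rfl fun h _ => ?_
    have h1 := v.sum_sq_inner_left (WithLp.toLp 2 (b h) : EuclideanSpace ℝ E)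
    rw [EuclideanSpace.real_norm_sq_eq] at h1
    rw [← h1]
    refine sum_congr rfl fun i _ => ?_
    rw [hB]
    simp [PiLp.inner_apply, mul_comm]
  obtain ⟨c, hc⟩ := cover_diag (fun i => ‖B (v i)‖) (fun _ => norm_nonneg _) hβ hr hs hk
  have hn : ∀ d : EuclideanSpace ℝ E, ‖d‖ ≤ r → ∑ i, (v.repr d i) ^ 2 ≤ r ^ 2 := by
    intro d hd
    rw [← EuclideanSpace.real_norm_sq_eq, v.repr.norm_map]
    exact pow_le_pow_left₀ (norm_nonneg _) hd 2
  refine ⟨fun d => c (fun i => v.repr d i), fun d d' hd hd' h => ?_⟩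
  refine le_trans (le_of_eq ?_) (hc _ _ (hn d hd) (hn d' hd') h)
  have h1 : ∑ h, (∑ e, b h e * (d e - d' e)) ^ 2 = ‖B (d - d')‖ ^ 2 := by
    rw [EuclideanSpace.real_norm_sq_eq]
    rfl
  have h2 : B (d - d') = ∑ i, (v.repr d i - v.repr d' i) • B (v i) := by
    conv_lhs => rw [← v.sum_repr (d - d')]
    simp [map_sum]
  rw [h1, h2, ← real_inner_self_eq_norm_sq, sum_inner]
  refine sum_congr rfl fun i _ => ?_
  rw [inner_sum, sum_eq_single i]
  · rw [inner_smul_left, inner_smul_right, real_inner_self_eq_norm_sq]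
    simp only [conj_trivial]
    ring
  · intro j _ hj
    rw [inner_smul_left, inner_smul_right, hv i j hj.symm]
    simp
  · simp

end Pool.Agent.H519Z.FLM
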