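import Pool.Agent.H519Z.FLM.Cover

/-! The square root of the Gibbs measure as a map between unit spheres. -/

open Finset

namespace Pool.Agent.H519Z.FLM

variable {E H : Type*} [Fintype E] [Fintype H]

noncomputable def ell (A : H → E → ℝ) (u : EuclideanSpace ℝ E) (h : H) : ℝ :=
  ∑ e, A h e * u e ^ 2

noncomputable def raw (A : H → E → ℝ) (β : ℝ) (u : EuclideanSpace ℝ E) : EuclideanSpace ℝ H :=
  WithLp.toLp 2 fun h => Real.exp (β * ell A u h / 2)

noncomputable def gb (A : H → E → ℝ) (β : ℝ) (u : EuclideanSpace ℝ E) : EuclideanSpace ℝ H :=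
  ‖raw A β u‖⁻¹ • raw A β u

omit [Fintype H] in
lemma raw_apply (A : H → E → ℝ) (β : ℝ) (u : EuclideanSpace ℝ E) (h : H) :
    raw A β u h = Real.exp (β * ell A u h / 2) := rfl

lemma raw_norm_sq (A : H → E → ℝ) (β : ℝ) (u : EuclideanSpace ℝ E) :
    ‖raw A β u‖ ^ 2 = ∑ h, Real.exp (β * ell A u h) := by
  rw [EuclideanSpace.real_norm_sq_eq]
  refine sum_congr rfl fun h _ => ?_
  rw [raw_apply, sq, ← Real.exp_add]
  congr 1; ring

lemma raw_norm_pos [Nonempty H] (A : H → E → ℝ) (β : ℝ) (u : EuclideanSpace ℝ E) :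
    0 < ‖raw A β u‖ := by
  have h : 0 < ‖raw A β u‖ ^ 2 := by
    rw [raw_norm_sq]
    exact sum_pos (fun _ _ => Real.exp_pos _) univ_nonempty
  exact lt_of_le_of_ne (norm_nonneg _) fun h0 => by rw [← h0] at h; simp at h

lemma gb_norm [Nonempty H] (A : H → E → ℝ) (β : ℝ) (u : EuclideanSpace ℝ E) :
    ‖gb A β u‖ = 1 := by
  rw [gb, norm_smul, norm_inv, norm_norm, inv_mul_cancel₀ (raw_norm_pos A β u).ne']

lemma gb_apply (A : H → E → ℝ) (β : ℝ) (u : EuclideanSpace ℝ E) (h : H) :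
    gb A β u h = ‖raw A β u‖⁻¹ * Real.exp (β * ell A u h / 2) := rfl

lemma gb_sq (A : H → E → ℝ) (β : ℝ) (u : EuclideanSpace ℝ E) (h : H) :
    gb A β u h ^ 2 = Real.exp (β * ell A u h) / ∑ h, Real.exp (β * ell A u h) := by
  rw [gb_apply, mul_pow, inv_pow, raw_norm_sq, sq (Real.exp _), ← Real.exp_add, inv_mul_eq_div]
  congr 2; ring

omit [Fintype H] in
lemma continuous_ell (A : H → E → ℝ) (h : H) : Continuous fun u => ell A u h := by
  unfold ell
  fun_prop

lemma continuous_gb [Nonempty H] (A : H → E → ℝ) (β : ℝ) : Continuous (gb A β) := by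
  have h1 : Continuous (raw A β) := by
    unfold raw
    refine (PiLp.continuous_toLp 2 _).comp (continuous_pi fun h => ?_)
    have := continuous_ell A h
    fun_prop
  exact (h1.norm.inv₀ fun u => (raw_norm_pos A β u).ne').smul h1

/-! ### the potential -/

lemma gibbs_le {ι : Type*} [Fintype ι] [Nonempty ι] (x t : ι → ℝ) (hx : ∀ i, 0 ≤ x i)
    (hs : ∑ i, x i = 1) :
    ∑ i, x i * t i + ∑ i, Real.negMulLog (x i) ≤ Real.log (∑ i, Real.exp (t i)) := by
  set Z := ∑ i, Real.exp (t i) with hZ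
  have hZ0 : 0 < Z := sum_pos (fun _ _ => Real.exp_pos _) univ_nonempty
  have h1 : ∀ i, x i * t i + Real.negMulLog (x i)
      ≤ x i * Real.log Z + (Real.exp (t i) / Z - x i) := by
    intro i
    rcases (hx i).eq_or_lt with h | h
    · rw [← h]; simp; positivity
    · have h2 := Real.log_le_sub_one_of_pos (x := Real.exp (t i) / Z / x i) (by positivity)
      rw [Real.log_div (by positivity) h.ne', Real.log_div (Real.exp_pos _).ne' hZ0.ne',
        Real.log_exp] at h2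
      have h3 := mul_le_mul_of_nonneg_left h2 h.le
      have h4 : x i * (Real.exp (t i) / Z / x i - 1) = Real.exp (t i) / Z - x i := by
        field_simp
      rw [h4] at h3
      rw [Real.negMulLog]
      nlinarith
  rw [← sum_add_distrib]
  refine (sum_le_sum fun i _ => h1 i).trans (le_of_eq ?_)
  rw [sum_add_distrib, sum_sub_distrib, ← sum_mul, hs, ← sum_div, ← hZ, div_self hZ0.ne']
  ring

lemma gibbs_eq {ι : Type*} [Fintype ι] [Nonempty ι] (t : ι → ℝ) :
    ∑ i, (Real.exp (t i) / ∑ j, Real.exp (t j)) * t i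
      + ∑ i, Real.negMulLog (Real.exp (t i) / ∑ j, Real.exp (t j))
      = Real.log (∑ i, Real.exp (t i)) := by
  set Z := ∑ i, Real.exp (t i) with hZ
  have hZ0 : 0 < Z := sum_pos (fun _ _ => Real.exp_pos _) univ_nonempty
  rw [← sum_add_distrib]
  have h1 : ∀ i, Real.exp (t i) / Z * t i + Real.negMulLog (Real.exp (t i) / Z)
      = Real.exp (t i) / Z * Real.log Z := by
    intro i
    rw [Real.negMulLog, Real.log_div (Real.exp_pos _).ne' hZ0.ne', Real.log_exp]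
    ring
  simp only [h1]
  rw [← sum_mul, ← sum_div, ← hZ, div_self hZ0.ne', one_mul]

noncomputable def ent (u : EuclideanSpace ℝ E) : ℝ := ∑ e, Real.negMulLog (u e ^ 2)

noncomputable def pot (A : H → E → ℝ) (β β' : ℝ) (u : EuclideanSpace ℝ E) : ℝ :=
  ent u / β' + Real.log (∑ h, Real.exp (β * ell A u h)) / β

lemma sum_sq_of_norm {u : EuclideanSpace ℝ E} (hu : ‖u‖ = 1) : ∑ e, u e ^ 2 = 1 := by
  rw [← EuclideanSpace.real_norm_sq_eq, hu, one_pow]

lemma pot_gb [Nonempty E] [Nonempty H] (A : H → E → ℝ) {β β' : ℝ} (hβ : 0 < β) (hβ' : 0 < β')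
    {u : EuclideanSpace ℝ E} (hu : ‖u‖ = 1) :
    pot A β β' u ≤ pot (fun e h => A h e) β' β (gb A β u) := by
  have h1 := gibbs_eq (fun h => β * ell A u h)
  simp only [← gb_sq] at h1
  have h2 := gibbs_le (fun e => u e ^ 2) (fun e => β' * ell (fun e h => A h e) (gb A β u) e)
    (fun _ => sq_nonneg _) (sum_sq_of_norm hu)
  set S := ∑ h, ∑ e, gb A β u h ^ 2 * A h e * u e ^ 2 with hS
  have h3 : ∑ h, gb A β u h ^ 2 * (β * ell A u h) = β * S := by
    rw [hS, mul_sum]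
    refine sum_congr rfl fun h _ => ?_
    rw [ell, mul_sum, mul_sum, mul_sum]
    exact sum_congr rfl fun e _ => by ring
  have h4 : ∑ e, u e ^ 2 * (β' * ell (fun e h => A h e) (gb A β u) e) = β' * S := by
    rw [hS, sum_comm, mul_sum]
    refine sum_congr rfl fun e _ => ?_
    rw [ell, mul_sum, mul_sum, mul_sum]
    exact sum_congr rfl fun h _ => by ring
  rw [h3] at h1
  rw [h4] at h2
  unfold pot ent
  rw [← h1]
  have h5 := div_le_div_of_nonneg_right h2 hβ'.le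
  rw [add_div, mul_div_cancel_left₀ _ hβ'.ne'] at h5
  rw [add_div, mul_div_cancel_left₀ _ hβ.ne']
  linarith

lemma pot_init [Nonempty H] (A : H → E → ℝ) {β β' : ℝ} (hβ : 0 < β) (hβ' : 0 < β')
    {u : EuclideanSpace ℝ E} (hu : ‖u‖ = 1) (h : ∃ h, ell A u h = 1) : 1 ≤ pot A β β' u := by
  obtain ⟨h0, hh0⟩ := h
  have h1 : 0 ≤ ent u := sum_nonneg fun e _ => Real.negMulLog_nonneg (sq_nonneg _) (by
    rw [← sum_sq_of_norm hu]
    exact single_le_sum (f := fun e => u e ^ 2) (fun _ _ => sq_nonneg _) (mem_univ e))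
  have h2 : β ≤ Real.log (∑ h, Real.exp (β * ell A u h)) := by
    rw [Real.le_log_iff_exp_le (sum_pos (fun _ _ => Real.exp_pos _) univ_nonempty)]
    have := single_le_sum (f := fun h => Real.exp (β * ell A u h))
      (fun _ _ => (Real.exp_pos _).le) (mem_univ h0)
    simpa [hh0] using this
  have h3 : 1 ≤ Real.log (∑ h, Real.exp (β * ell A u h)) / β := by
    rw [le_div_iff₀ hβ]; linarith
  have h4 : 0 ≤ ent u / β' := div_nonneg h1 hβ'.le
  unfold pot
  linarith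

lemma pot_final [Nonempty E] [Nonempty H] (A : H → E → ℝ) {β β' : ℝ} (hβ : 0 < β) (hβ' : 0 < β')
    (h1 : 4 * Real.log (Fintype.card H) ≤ β) (h2 : 4 * Real.log (Fintype.card E) ≤ β')
    {u : EuclideanSpace ℝ E} (hu : ‖u‖ = 1) (hp : 1 ≤ pot A β β' u) :
    ∃ h, 1 / 2 ≤ ell A u h := by
  by_contra hcon
  push Not at hcon
  have h3 : ent u ≤ Real.log (Fintype.card E) := by
    have := gibbs_le (fun e => u e ^ 2) (fun _ => 0) (fun _ => sq_nonneg _) (sum_sq_of_norm hu)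
    simpa [ent] using this
  have hH : (0 : ℝ) < Fintype.card H := by exact_mod_cast Fintype.card_pos
  have h4 : Real.log (∑ h, Real.exp (β * ell A u h)) < Real.log (Fintype.card H) + β / 2 := by
    have h5 : ∑ h, Real.exp (β * ell A u h) < ∑ _h : H, Real.exp (β / 2) :=
      sum_lt_sum_of_nonempty univ_nonempty fun h _ => Real.exp_lt_exp.2 (by nlinarith [hcon h])
    rw [sum_const, nsmul_eq_mul, card_univ] at h5
    have h6 := Real.log_lt_log (sum_pos (fun _ _ => Real.exp_pos _) univ_nonempty) h5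
    rwa [Real.log_mul hH.ne' (Real.exp_pos _).ne', Real.log_exp] at h6
  have h5 : ent u / β' ≤ 1 / 4 := by rw [div_le_iff₀ hβ']; linarith
  have h6 : Real.log (∑ h, Real.exp (β * ell A u h)) / β < 3 / 4 := by
    rw [div_lt_iff₀ hβ]; linarith
  unfold pot at hp
  linarith

/-! ### local behaviour -/

lemma abs_sum_mul_le {a : E → ℝ} (ha : ∀ e, |a e| ≤ 1) (u d : EuclideanSpace ℝ E) :
    |∑ e, a e * u e * d e| ≤ ‖u‖ * ‖d‖ := by
  have h1 := sum_mul_sq_le_sq_mul_sq univ (fun e => a e * u e) (fun e => d e)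
  have h2 : ∑ e, (a e * u e) ^ 2 ≤ ∑ e, u e ^ 2 := sum_le_sum fun e _ => by
    rw [mul_pow]
    have : a e ^ 2 ≤ 1 := by rw [← sq_abs]; exact pow_le_one₀ (abs_nonneg _) (ha e)
    nlinarith [sq_nonneg (u e)]
  have h3 : (∑ e, a e * u e * d e) ^ 2 ≤ (‖u‖ * ‖d‖) ^ 2 := by
    rw [mul_pow, EuclideanSpace.real_norm_sq_eq, EuclideanSpace.real_norm_sq_eq]
    exact h1.trans (mul_le_mul_of_nonneg_right h2 (sum_nonneg fun _ _ => sq_nonneg _))
  exact abs_le_of_sq_le_sq' h3 (by positivity) |> abs_le.2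

omit [Fintype H] in
lemma ell_sub (A : H → E → ℝ) (u u' : EuclideanSpace ℝ E) (h : H) :
    ell A u' h - ell A u h
      = 2 * ∑ e, A h e * u e * (u' - u) e + ∑ e, A h e * (u' - u) e * (u' - u) e := by
  unfold ell
  rw [← sum_sub_distrib, mul_sum, ← sum_add_distrib]
  refine sum_congr rfl fun e _ => ?_
  simp only [PiLp.sub_apply]
  ring

omit [Fintype H] in
lemma ell_lip {A : H → E → ℝ} (hA : ∀ h e, |A h e| ≤ 1) {u u' : EuclideanSpace ℝ E}
    (hu : ‖u‖ = 1) (hu' : ‖u'‖ = 1) (h : H) : |ell A u' h - ell A u h| ≤ 2 * dist u' u := by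
  have h1 : ell A u' h - ell A u h = ∑ e, A h e * (u' + u) e * (u' - u) e := by
    unfold ell
    rw [← sum_sub_distrib]
    refine sum_congr rfl fun e _ => ?_
    simp only [PiLp.sub_apply, PiLp.add_apply]
    ring
  rw [h1, dist_eq_norm]
  refine (abs_sum_mul_le (hA h) _ _).trans (mul_le_mul_of_nonneg_right ?_ (norm_nonneg _))
  linarith [norm_add_le u' u]

lemma norm_mul_le {w : EuclideanSpace ℝ H} (hw : ‖w‖ = 1) {g : H → ℝ} {ε : ℝ} (hε : 0 ≤ ε)
    (hg : ∀ h, |g h| ≤ ε) : ‖(WithLp.toLp 2 fun h => w h * g h : EuclideanSpace ℝ H)‖ ≤ ε := by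
  have h1 : ‖(WithLp.toLp 2 fun h => w h * g h : EuclideanSpace ℝ H)‖ ^ 2 ≤ ε ^ 2 := by
    rw [EuclideanSpace.real_norm_sq_eq]
    calc ∑ h, (w h * g h) ^ 2 ≤ ∑ h, w h ^ 2 * ε ^ 2 := sum_le_sum fun h _ => by
          rw [mul_pow]
          refine mul_le_mul_of_nonneg_left ?_ (sq_nonneg _)
          rw [← sq_abs]
          exact pow_le_pow_left₀ (abs_nonneg _) (hg h) 2
      _ = ε ^ 2 := by rw [← sum_mul, sum_sq_of_norm hw, one_mul]
  exact (pow_le_pow_iff_left₀ (norm_nonneg _) hε two_ne_zero).1 h1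

lemma normalize_sub_le {V : Type*} [NormedAddCommGroup V] [NormedSpace ℝ V] {p q : V}
    (hp : 1 / 2 ≤ ‖p‖) (hq : 1 / 2 ≤ ‖q‖) : ‖‖p‖⁻¹ • p - ‖q‖⁻¹ • q‖ ≤ 4 * ‖p - q‖ := by
  have hp0 : 0 < ‖p‖ := by linarith
  have hq0 : 0 < ‖q‖ := by linarith
  have h1 : ‖p‖⁻¹ • p - ‖q‖⁻¹ • q = ‖p‖⁻¹ • (p - q) + (‖p‖⁻¹ - ‖q‖⁻¹) • q := by
    rw [smul_sub, sub_smul]; abel
  have h2 : ‖p‖⁻¹ ≤ 2 := by rw [inv_le_comm₀ hp0 two_pos]; linarith
  have h3 : |‖p‖⁻¹ - ‖q‖⁻¹| * ‖q‖ = ‖p‖⁻¹ * |‖q‖ - ‖p‖| := by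
    have : ‖p‖⁻¹ - ‖q‖⁻¹ = ‖p‖⁻¹ * (‖q‖ - ‖p‖) * ‖q‖⁻¹ := by field_simp
    rw [this, abs_mul, abs_mul, abs_of_pos (inv_pos.2 hp0), abs_of_pos (inv_pos.2 hq0)]
    field_simp
  have h4 : |‖q‖ - ‖p‖| ≤ ‖p - q‖ := by rw [norm_sub_rev]; exact abs_norm_sub_norm_le _ _
  rw [h1]
  refine (norm_add_le _ _).trans ?_
  rw [norm_smul, norm_smul, norm_inv, norm_norm, Real.norm_eq_abs, h3]
  have h5 : ‖p‖⁻¹ * |‖q‖ - ‖p‖| ≤ 2 * ‖p - q‖ := mul_le_mul h2 h4 (abs_nonneg _) two_pos.le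
  have h6 : ‖p‖⁻¹ * ‖p - q‖ ≤ 2 * ‖p - q‖ := mul_le_mul_of_nonneg_right h2 (norm_nonneg _)
  linarith

/-- expansion of the Gibbs map around a unit vector -/
lemma gb_expand [Nonempty H] {A : H → E → ℝ} (hA : ∀ h e, |A h e| ≤ 1) {β r : ℝ} (hβ : 0 < β)
    (hr1 : r ≤ 1) (hr2 : 8 * β * r ≤ 1) {u u' : EuclideanSpace ℝ E} (hu : ‖u‖ = 1)
    (hd : ‖u' - u‖ ≤ r) :
    ∃ p : EuclideanSpace ℝ H, gb A β u' = ‖p‖⁻¹ • p ∧ 1 / 2 ≤ ‖p‖ ∧
      ‖p - gb A β u - (WithLp.toLp 2 fun h => ∑ e, β * gb A β u h * A h e * u e * (u' - u) e)‖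
        ≤ (4 * β ^ 2 + β) * r ^ 2 := by
  have hr0 : 0 ≤ r := (norm_nonneg _).trans hd
  have hN := raw_norm_pos A β u
  let t : H → ℝ := fun h => β * (ell A u' h - ell A u h) / 2
  have hL : ∀ h, |∑ e, A h e * u e * (u' - u) e| ≤ r := fun h =>
    (abs_sum_mul_le (hA h) u (u' - u)).trans (by rw [hu, one_mul]; exact hd)
  have hQ : ∀ h, |∑ e, A h e * (u' - u) e * (u' - u) e| ≤ r ^ 2 := fun h =>
    (abs_sum_mul_le (hA h) (u' - u) (u' - u)).trans
      (by rw [sq]; exact mul_le_mul hd hd (norm_nonneg _) hr0)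
  have ht : ∀ h, t h = β * ∑ e, A h e * u e * (u' - u) e
      + β / 2 * ∑ e, A h e * (u' - u) e * (u' - u) e := by
    intro h
    simp only [t]
    rw [ell_sub]; ring
  have hrr : r ^ 2 ≤ r := by nlinarith
  have htb : ∀ h, |t h| ≤ 2 * β * r := by
    intro h
    rw [ht]
    refine (abs_add_le _ _).trans ?_
    rw [abs_mul, abs_mul, abs_of_pos hβ, abs_of_pos (half_pos hβ)]
    have h1 := mul_le_mul_of_nonneg_left (hL h) hβ.le
    have h2 := mul_le_mul_of_nonneg_left ((hQ h).trans hrr) (half_pos hβ).le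
    nlinarith [mul_nonneg hβ.le hr0]
  have ht1 : ∀ h, |t h| ≤ 1 := fun h => (htb h).trans (by nlinarith [mul_nonneg hβ.le hr0])
  let p : EuclideanSpace ℝ H := ‖raw A β u‖⁻¹ • raw A β u'
  have hp : ∀ h, p h = gb A β u h * Real.exp (t h) := by
    intro h
    rw [gb_apply, mul_assoc, ← Real.exp_add]
    change ‖raw A β u‖⁻¹ * Real.exp (β * ell A u' h / 2) = _
    congr 2
    simp only [t]; ring
  refine ⟨p, ?_, ?_, ?_⟩
  · simp only [p, gb]
    rw [norm_smul, norm_inv, norm_norm, smul_smul]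
    congr 1
    field_simp
  · have h1 : p - gb A β u = WithLp.toLp 2 fun h => gb A β u h * (Real.exp (t h) - 1) := by
      ext h
      simp only [PiLp.sub_apply, hp]
      ring
    have h2 : ‖p - gb A β u‖ ≤ 1 / 2 := by
      rw [h1]
      refine norm_mul_le (gb_norm A β u) (by norm_num) fun h => ?_
      refine (Real.abs_exp_sub_one_le (ht1 h)).trans ?_
      linarith [htb h]
    have h3 := norm_sub_norm_le (gb A β u) p
    rw [gb_norm, norm_sub_rev] at h3
    linarith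
  · have h1 : p - gb A β u
        - (WithLp.toLp 2 fun h => ∑ e, β * gb A β u h * A h e * u e * (u' - u) e)
        = WithLp.toLp 2 fun h => gb A β u h * ((Real.exp (t h) - 1 - t h)
          + β / 2 * ∑ e, A h e * (u' - u) e * (u' - u) e) := by
      ext h
      have h2 : ∑ e, β * gb A β u h * A h e * u e * (u' - u) e
          = gb A β u h * (β * ∑ e, A h e * u e * (u' - u) e) := by
        rw [mul_sum, mul_sum]
        exact sum_congr rfl fun e _ => by ring
      have h3 := ht h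
      change p h - gb A β u h - ∑ e, β * gb A β u h * A h e * u e * (u' - u) e = _
      rw [h2, hp]
      change _ = gb A β u h * ((Real.exp (t h) - 1 - t h)
          + β / 2 * ∑ e, A h e * (u' - u) e * (u' - u) e)
      linear_combination (gb A β u h) * h3
    rw [h1]
    refine norm_mul_le (gb_norm A β u) (by positivity) fun h => ?_
    refine (abs_add_le _ _).trans ?_
    have h2 := Real.abs_exp_sub_one_sub_id_le (ht1 h)
    have h3 : t h ^ 2 ≤ (2 * β * r) ^ 2 := by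
      rw [← sq_abs]; exact pow_le_pow_left₀ (abs_nonneg _) (htb h) 2
    rw [abs_mul, abs_of_pos (half_pos hβ)]
    have h4 := mul_le_mul_of_nonneg_left (hQ h) (half_pos hβ).le
    nlinarith [mul_nonneg hβ.le (sq_nonneg r)]

lemma step [Nonempty H] {A : H → E → ℝ} (hA : ∀ h e, |A h e| ≤ 1) {β : ℝ} (hβ : 0 < β)
    {k : ℕ} (hk : 1 ≤ k) :
    ∃ r0 : ℝ, 0 < r0 ∧ ∀ r : ℝ, 0 < r → r ≤ r0 → ∀ {Ω : Type} (f : Ω → EuclideanSpace ℝ E),
      (∀ a, ‖f a‖ = 1) → ∀ m : ℕ, Col f m r →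
        Col (fun a => gb A β (f a)) (m * 12 ^ k) (10 * β / √k * r) := by
  classical
  have hk0 : (0 : ℝ) < k := by exact_mod_cast hk
  have hs0 : 0 < √(k : ℝ) := Real.sqrt_pos.2 hk0
  set γ : ℝ := 4 * β ^ 2 + β with hγ
  have hγ0 : 0 < γ := by positivity
  refine ⟨min 1 (min (1 / (8 * β)) (β / (8 * γ * √k))), by positivity, ?_⟩
  intro r hr hr0 Ω f hf m ⟨c, hc⟩
  have hr1 : r ≤ 1 := hr0.trans (min_le_left _ _)
  have hr2 : 8 * β * r ≤ 1 := by
    have := hr0.trans ((min_le_right _ _).trans (min_le_left _ _))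
    rw [le_div_iff₀ (by positivity)] at this
    linarith
  have hr3 : 8 * γ * r ≤ β / √k := by
    have := hr0.trans ((min_le_right _ _).trans (min_le_right _ _))
    rw [le_div_iff₀ (by positivity)] at this
    rw [le_div_iff₀ hs0]
    linarith
  have hcov : ∀ u : EuclideanSpace ℝ E, ‖u‖ = 1 →
      ∃ c : EuclideanSpace ℝ E → Fin (12 ^ k), ∀ d d' : EuclideanSpace ℝ E, ‖d‖ ≤ r → ‖d'‖ ≤ r →
      c d = c d' → ∑ h, (∑ e, (β * gb A β u h * A h e * u e) * (d e - d' e)) ^ 2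
        ≤ 5 * β ^ 2 * r ^ 2 / k := by
    intro u hu
    refine cover_lin (fun h e => β * gb A β u h * A h e * u e) hβ hr ?_ hk
    calc ∑ h, ∑ e, (β * gb A β u h * A h e * u e) ^ 2
        ≤ ∑ h, ∑ e, β ^ 2 * (gb A β u h ^ 2 * u e ^ 2) :=
          sum_le_sum fun h _ => sum_le_sum fun e _ => by
            have h1 : A h e ^ 2 ≤ 1 := by
              rw [← sq_abs]; exact pow_le_one₀ (abs_nonneg _) (hA h e)
            have h2 : 0 ≤ β ^ 2 * (gb A β u h ^ 2 * u e ^ 2) := by positivity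
            calc (β * gb A β u h * A h e * u e) ^ 2
                = β ^ 2 * (gb A β u h ^ 2 * u e ^ 2) * A h e ^ 2 := by ring
              _ ≤ β ^ 2 * (gb A β u h ^ 2 * u e ^ 2) * 1 := mul_le_mul_of_nonneg_left h1 h2
              _ = _ := mul_one _
      _ = β ^ 2 := by
          simp only [← mul_sum]
          rw [sum_sq_of_norm hu]
          simp only [mul_one]
          rw [sum_sq_of_norm (gb_norm A β u), mul_one]
  choose cc hcc using hcov
  rcases isEmpty_or_nonempty Ω with hΩ | hΩ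
  · exact ⟨fun a => isEmptyElim a, fun a => isEmptyElim a⟩
  let u : Fin m → EuclideanSpace ℝ E := fun i => f (Function.invFun c i)
  have hu : ∀ i, ‖u i‖ = 1 := fun i => hf _
  have hdu : ∀ a, ‖f a - u (c a)‖ ≤ r := by
    intro a
    rw [← dist_eq_norm]
    exact hc _ _ (Function.invFun_eq ⟨a, rfl⟩).symm
  refine ⟨fun a => finProdFinEquiv (c a, cc (u (c a)) (hu _) (f a - u (c a))), fun a b hab => ?_⟩
  have hab' := finProdFinEquiv.injective hab
  have h1 : c a = c b := congrArg Prod.fst hab'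
  have h2 : cc (u (c a)) (hu _) (f a - u (c a)) = cc (u (c b)) (hu _) (f b - u (c b)) :=
    congrArg Prod.snd hab'
  have hda := hdu a
  have hdb := hdu b
  rw [← h1] at hdb
  have h3 : cc (u (c a)) (hu _) (f a - u (c a)) = cc (u (c a)) (hu _) (f b - u (c a)) := by
    rw [h2]; simp only [h1]
  have h4 := hcc (u (c a)) (hu _) _ _ hda hdb h3
  obtain ⟨p, hp1, hp2, hp3⟩ := gb_expand hA hβ hr1 hr2 (hu (c a)) hda
  obtain ⟨q, hq1, hq2, hq3⟩ := gb_expand hA hβ hr1 hr2 (hu (c a)) hdb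
  set v := u (c a)
  set La : EuclideanSpace ℝ H :=
    WithLp.toLp 2 fun h => ∑ e, β * gb A β v h * A h e * v e * (f a - v) e with hLa
  set Lb : EuclideanSpace ℝ H :=
    WithLp.toLp 2 fun h => ∑ e, β * gb A β v h * A h e * v e * (f b - v) e with hLb
  have h5 : ‖La - Lb‖ ^ 2 ≤ (9 / 4 * β / √k * r) ^ 2 := by
    have e1 : ‖La - Lb‖ ^ 2
        = ∑ h, (∑ e, (β * gb A β v h * A h e * v e) * ((f a - v) e - (f b - v) e)) ^ 2 := by
      rw [EuclideanSpace.real_norm_sq_eq]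
      refine sum_congr rfl fun h _ => ?_
      congr 1
      change ∑ e, β * gb A β v h * A h e * v e * (f a - v) e
        - ∑ e, β * gb A β v h * A h e * v e * (f b - v) e = _
      rw [← sum_sub_distrib]
      exact sum_congr rfl fun e _ => by ring
    rw [e1]
    refine h4.trans ?_
    have e2 : (9 / 4 * β / √k * r) ^ 2 = 81 / 16 * β ^ 2 * r ^ 2 / k := by
      rw [mul_pow, div_pow, Real.sq_sqrt hk0.le]; ring
    rw [e2]
    refine div_le_div_of_nonneg_right ?_ hk0.le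
    nlinarith [mul_nonneg (sq_nonneg β) (sq_nonneg r)]
  have h6 : ‖La - Lb‖ ≤ 9 / 4 * β / √k * r :=
    (pow_le_pow_iff_left₀ (norm_nonneg _) (by positivity) two_ne_zero).1 h5
  have h7 : ‖p - q‖ ≤ 9 / 4 * β / √k * r + 2 * (γ * r ^ 2) := by
    have e : p - q = (La - Lb) + ((p - gb A β v - La) - (q - gb A β v - Lb)) := by abel
    rw [e]
    refine (norm_add_le _ _).trans ?_
    linarith [norm_sub_le (p - gb A β v - La) (q - gb A β v - Lb)]
  rw [dist_eq_norm]
  change ‖gb A β (f a) - gb A β (f b)‖ ≤ _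
  rw [hp1, hq1]
  refine (normalize_sub_le hp2 hq2).trans ?_
  have h8 : 8 * γ * r * r ≤ β / √k * r := mul_le_mul_of_nonneg_right hr3 hr.le
  have e1 : 9 / 4 * β / √k * r = 9 / 4 * (β / √k * r) := by ring
  have e2 : 10 * β / √k * r = 10 * (β / √k * r) := by ring
  rw [e1] at h7
  rw [e2]
  nlinarith

end Pool.Agent.H519Z.FLM
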