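import Pool.Agent.H519Z.FLM.Core

/-! The bound for finite posets with meets and a free involution. -/

open Finset

namespace Pool.Agent.H519Z.FLM

theorem poset (P : Type) [Fintype P] [PartialOrder P] (σ : P ≃o P)
    (hmeet : ∀ x y : P, {z : P | z ≤ x ∧ z ≤ y} = ∅ ∨
        ∃ w : P, {z : P | z ≤ x ∧ z ≤ y} = {z : P | z ≤ w})
    (hinv : ∀ x : P, σ (σ x) = x) (hfree : ∀ x : P, σ x ≠ x) :
    ∃ n : ℕ, (n : ℝ) ≤ 26000 * Real.log ({x : P | IsMin x}.ncard : ℝ) *
            Real.log ({x : P | IsMax x}.ncard : ℝ) ∧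
        ∃ g : (P → ℝ) → EuclideanSpace ℝ (Fin (n + 1)),
          ContinuousOn g {f : P → ℝ | (∀ p, 0 ≤ f p) ∧ (∑ p, f p = 1) ∧
              IsChain (· ≤ ·) {p : P | f p ≠ 0}} ∧
          ∀ f ∈ {f : P → ℝ | (∀ p, 0 ≤ f p) ∧ (∑ p, f p = 1) ∧
              IsChain (· ≤ ·) {p : P | f p ≠ 0}},
            ‖g f‖ = 1 ∧ g (fun p => f (σ p)) = -g f := by
  classical
  rcases isEmpty_or_nonempty P with hP | hP
  · refine ⟨0, ?_, fun _ => 0, continuousOn_const, fun f hf => ?_⟩
    · have : {x : P | IsMin x} = ∅ := Set.eq_empty_of_isEmpty _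
      rw [this]; simp
    · have := hf.2.1
      simp at this
  have hanti : ∀ v x : P, v ≤ x → σ v ≤ x → False := by
    intro v x h1 h2
    have h3 : v ≤ σ x := by
      have := σ.monotone h2
      rwa [hinv] at this
    rcases hmeet x (σ x) with h | ⟨w, hw⟩
    · have : v ∈ {z : P | z ≤ x ∧ z ≤ σ x} := ⟨h1, h3⟩
      rw [h] at this
      exact this
    · have hw1 : w ∈ {z : P | z ≤ x ∧ z ≤ σ x} := by rw [hw]; exact le_refl w
      have hw2 : σ w ∈ {z : P | z ≤ x ∧ z ≤ σ x} := by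
        refine ⟨?_, σ.monotone hw1.1⟩
        have := σ.monotone hw1.2
        rwa [hinv] at this
      rw [hw] at hw2
      have hw3 : σ w ≤ w := hw2
      have hw4 : w ≤ σ w := by
        have := σ.monotone hw3
        rwa [hinv] at this
      exact hfree w (le_antisymm hw3 hw4)
  have hswap : ∀ x y : P, σ x ≤ y ↔ x ≤ σ y := by
    intro x y
    conv_lhs => rw [← hinv y]
    exact σ.le_iff_le
  let E : Type := {x : P // IsMin x}
  let H : Type := {x : P // IsMax x}
  let τE : E ≃ E :=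
    { toFun := fun e => ⟨σ e.1, σ.isMin_apply.2 e.2⟩
      invFun := fun e => ⟨σ e.1, σ.isMin_apply.2 e.2⟩
      left_inv := fun e => Subtype.ext (hinv _)
      right_inv := fun e => Subtype.ext (hinv _) }
  let τH : H ≃ H :=
    { toFun := fun e => ⟨σ e.1, σ.isMax_apply.2 e.2⟩
      invFun := fun e => ⟨σ e.1, σ.isMax_apply.2 e.2⟩
      left_inv := fun e => Subtype.ext (hinv _)
      right_inv := fun e => Subtype.ext (hinv _) }
  let A : H → E → ℝ := fun h e => (if e.1 ≤ h.1 then 1 else 0) - (if σ e.1 ≤ h.1 then 1 else 0)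
  have hA : ∀ h e, |A h e| ≤ 1 := by
    intro h e
    simp only [A]
    split_ifs <;> norm_num
  have hE : ∀ h e, A h (τE e) = -A h e := by
    intro h e
    change (if σ e.1 ≤ h.1 then (1 : ℝ) else 0) - (if σ (σ e.1) ≤ h.1 then 1 else 0) = _
    rw [hinv]
    simp only [A]
    ring
  have hH : ∀ h e, A (τH h) e = -A h e := by
    intro h e
    change (if e.1 ≤ σ h.1 then (1 : ℝ) else 0) - (if σ e.1 ≤ σ h.1 then 1 else 0) = _
    simp only [A, ← hswap, hinv]
    ring
  have hmin : ∀ p : P, ∃ e : E, e.1 ≤ p := by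
    intro p
    obtain ⟨m, hm, hm'⟩ := exists_minimal_le_of_wellFoundedLT (fun _ : P => True) p trivial
    exact ⟨⟨m, fun b hb => hm'.2 trivial hb⟩, hm⟩
  have hmax : ∀ p : P, ∃ h : H, p ≤ h.1 := by
    intro p
    obtain ⟨m, hm, hm'⟩ := exists_maximal_ge_of_wellFoundedGT (fun _ : P => True) p trivial
    exact ⟨⟨m, fun b hb => hm'.2 trivial hb⟩, hm⟩
  obtain ⟨p0⟩ := hP
  have cE : 2 ≤ Fintype.card E := by
    obtain ⟨e, -⟩ := hmin p0
    exact Fintype.one_lt_card_iff.2 ⟨τE e, e, fun h => hfree e.1 (congrArg Subtype.val h)⟩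
  have cH : 2 ≤ Fintype.card H := by
    obtain ⟨e, -⟩ := hmax p0
    exact Fintype.one_lt_card_iff.2 ⟨τH e, e, fun h => hfree e.1 (congrArg Subtype.val h)⟩
  obtain ⟨n, hn, G, hGc, hGo, hG0⟩ := core E H A hA τE τH hE hH cE cH
  have nE : {x : P | IsMin x}.ncard = Fintype.card E := by
    rw [← Nat.card_eq_fintype_card]; rfl
  have nH : {x : P | IsMax x}.ncard = Fintype.card H := by
    rw [← Nat.card_eq_fintype_card]; rfl
  -- the uniform measure on the vertices of a cell
  let c : P → ℝ := fun p => ∑ e : E, if e.1 ≤ p then 1 else 0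
  have hc0 : ∀ p, 0 < c p := by
    intro p
    obtain ⟨e, he⟩ := hmin p
    refine sum_pos' (fun e _ => by split_ifs <;> norm_num) ⟨e, mem_univ _, ?_⟩
    rw [if_pos he]; norm_num
  have hcσ : ∀ p, c (σ p) = c p := by
    intro p
    simp only [c]
    rw [← τE.sum_comp]
    refine sum_congr rfl fun e _ => ?_
    change (if σ e.1 ≤ σ p then (1 : ℝ) else 0) = _
    simp only [σ.le_iff_le]
  let X : (P → ℝ) → E → ℝ := fun f e => ∑ p, f p / c p * if e.1 ≤ p then 1 else 0
  have hXc : Continuous X := continuous_pi fun e => by fun_prop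
  have hXσ : ∀ f, X (fun p => f (σ p)) = fun e => X f (τE e) := by
    intro f
    funext e
    simp only [X]
    rw [← σ.toEquiv.sum_comp (fun p => f p / c p * if (τE e).1 ≤ p then 1 else 0)]
    refine sum_congr rfl fun p _ => ?_
    change _ = f (σ p) / c (σ p) * if σ e.1 ≤ σ p then 1 else 0
    simp only [hcσ, σ.le_iff_le]
  have hX0 : ∀ f ∈ {f : P → ℝ | (∀ p, 0 ≤ f p) ∧ (∑ p, f p = 1) ∧
      IsChain (· ≤ ·) {p : P | f p ≠ 0}}, G (X f) ≠ 0 := by
    rintro f ⟨h0, h1, h2⟩
    have hsum : ∑ e, X f e = 1 := by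
      simp only [X]
      rw [sum_comm]
      refine Eq.trans (sum_congr rfl fun p _ => ?_) h1
      rw [← mul_sum]
      exact div_mul_cancel₀ _ (hc0 p).ne'
    refine hG0 _ (fun e => sum_nonneg fun p _ => mul_nonneg (div_nonneg (h0 p) (hc0 p).le)
      (by split_ifs <;> norm_num)) hsum ?_
    have hne : {p : P | f p ≠ 0}.Nonempty := by
      by_contra hcon
      rw [Set.not_nonempty_iff_eq_empty] at hcon
      have : ∀ p, f p = 0 := fun p => by
        by_contra h
        have : p ∈ {p : P | f p ≠ 0} := h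
        rw [hcon] at this
        exact this
      simp [this] at h1
    obtain ⟨t, ht⟩ := (Set.toFinite {p : P | f p ≠ 0}).exists_maximal hne
    have htop : ∀ p, f p ≠ 0 → p ≤ t := by
      intro p hp
      rcases h2.total hp ht.1 with h | h
      · exact h
      · exact ht.2 hp h
    obtain ⟨h, hh⟩ := hmax t
    refine ⟨h, ?_⟩
    rw [← hsum]
    refine sum_congr rfl fun e _ => ?_
    by_cases he : e.1 ≤ h.1
    · have : ¬ σ e.1 ≤ h.1 := fun h' => hanti _ _ he h'
      simp only [A, if_pos he, if_neg this]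
      ring
    · have : X f e = 0 := by
        refine sum_eq_zero fun p _ => ?_
        by_cases hp : f p = 0
        · rw [hp]; simp
        · rw [if_neg fun h' => he (h'.trans ((htop p hp).trans hh)), mul_zero]
      rw [this, mul_zero]
  let G' : (P → ℝ) → EuclideanSpace ℝ (Fin (n + 1)) := fun f => WithLp.toLp 2 (G (X f))
  have hG'c : Continuous G' := (PiLp.continuous_toLp 2 _).comp (hGc.comp hXc)
  have hG'0 : ∀ f ∈ {f : P → ℝ | (∀ p, 0 ≤ f p) ∧ (∑ p, f p = 1) ∧
      IsChain (· ≤ ·) {p : P | f p ≠ 0}}, ‖G' f‖ ≠ 0 := by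
    intro f hf h
    exact hX0 f hf (congrArg WithLp.ofLp (norm_eq_zero.1 h))
  refine ⟨n, ?_, fun f => ‖G' f‖⁻¹ • G' f, ?_, fun f hf => ⟨?_, ?_⟩⟩
  · rw [nE, nH]; linarith
  · exact (hG'c.norm.continuousOn.inv₀ hG'0).smul hG'c.continuousOn
  · rw [norm_smul, norm_inv, norm_norm, inv_mul_cancel₀ (hG'0 f hf)]
  · have : G' (fun p => f (σ p)) = -G' f := by
      simp only [G']
      rw [hXσ, hGo]
      rfl
    simp only [this, norm_neg, smul_neg]

end Pool.Agent.H519Z.FLM
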