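import Mathlib

namespace Pool.Agent.H519Z.FLM

/-- The unit sphere `S^d` of Euclidean `(d+1)`-space. -/
abbrev Sph (d : ℕ) : Type := Metric.sphere (0 : EuclideanSpace ℝ (Fin (d + 1))) 1

/-- The relation `x = y or x = -y` on the sphere. -/
def antipodal (d : ℕ) : Setoid (Sph d) where
  r x y := x = y ∨ x = -y
  iseqv :=
    { refl := fun _ => Or.inl rfl
      symm := by
        rintro x y (h | h)
        · exact Or.inl h.symm
        · exact Or.inr (by rw [h, neg_neg])
      trans := by
        rintro x y z (h | h) (h' | h')
        · exact Or.inl (h.trans h')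
        · exact Or.inr (h.trans h')
        · exact Or.inr (by rw [h, h'])
        · exact Or.inl (by rw [h, h', neg_neg]) }

/-- Real projective `d`-space: the sphere modulo the antipodal map, with the quotient topology. -/
abbrev RP (d : ℕ) : Type := Quotient (antipodal d)

/-- The geometric realization of a simplicial complex on `n` vertices: the points of the standard
simplex whose support is a face. -/
def realization {n : ℕ} (K : AbstractSimplicialComplex (Fin n)) : Set (Fin n → ℝ) :=
  {x | (∀ v, 0 ≤ x v) ∧ ∑ v, x v = 1 ∧ ∃ s ∈ K.faces, ∀ v, v ∈ s ↔ x v ≠ 0}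

end Pool.Agent.H519Z.FLM
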