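import Pool.Agent.H519Z.FLM.Core
import Pool.Agent.H519Z.FLM.RPDefs
import Pool.Agent.Helper325.BorsukUlam

/-! Triangulations of real projective space have many vertices. -/

open Finset Filter Topology

namespace Pool.Agent.H519Z.FLM

lemma bu_sphere {d k : ℕ} (F : Sph d → Fin k → ℝ) (hF : Continuous F)
    (hodd : ∀ x, F (-x) = -F x) (h0 : ∀ x, F x ≠ 0) : d < k := by
  classical
  by_contra hcon
  push Not at hcon
  let S : Set (Fin (d + 1) → ℝ) := Helper325.BorsukUlam.K d
  have hS : IsClosed S := isClosed_eq (by fun_prop) continuous_const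
  have hne : ∀ x : S, ‖(WithLp.toLp 2 x.1 : EuclideanSpace ℝ (Fin (d + 1)))‖ ≠ 0 := by
    intro x h
    have h1 : x.1 = 0 := congrArg WithLp.ofLp (norm_eq_zero.1 h)
    have h2 : ∑ i, |x.1 i| = 1 := x.2
    simp [h1] at h2
  let ν : S → Sph d := fun x =>
    ⟨‖(WithLp.toLp 2 x.1 : EuclideanSpace ℝ (Fin (d + 1)))‖⁻¹ • WithLp.toLp 2 x.1, by
      rw [mem_sphere_zero_iff_norm, norm_smul, norm_inv, norm_norm, inv_mul_cancel₀ (hne x)]⟩
  have hν : Continuous ν := by
    have h1 : Continuous fun x : S => (WithLp.toLp 2 x.1 : EuclideanSpace ℝ (Fin (d + 1))) :=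
      (PiLp.continuous_toLp 2 _).comp continuous_subtype_val
    exact ((h1.norm.inv₀ hne).smul h1).subtype_mk _
  let F' : C(S, Fin d → ℝ) :=
    ⟨fun x j => if h : (j : ℕ) < k then F (ν x) ⟨j, h⟩ else 0, continuous_pi fun j => by
      split_ifs with h
      · exact (continuous_apply _).comp (hF.comp hν)
      · exact continuous_const⟩
  obtain ⟨G, hG⟩ := F'.exists_restrict_eq hS
  have hG' : ∀ x : S, G x.1 = F' x := fun x => by rw [← hG]; rfl
  obtain ⟨x, hx, hx0⟩ := Helper325.BorsukUlam.borsuk_ulam d (fun x => G x - G (-x))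
    (by fun_prop) (fun x => by simp)
  have hx' : -x ∈ S := by
    have h2 : ∑ i, |x i| = 1 := hx
    change ∑ i, |(-x) i| = 1
    simpa using h2
  have e : ν ⟨-x, hx'⟩ = -ν ⟨x, hx⟩ := by
    apply Subtype.ext
    change ‖-(WithLp.toLp 2 x : EuclideanSpace ℝ (Fin (d + 1)))‖⁻¹ •
      (-(WithLp.toLp 2 x : EuclideanSpace ℝ (Fin (d + 1)))) = -(_ • _)
    rw [norm_neg, smul_neg]
  apply h0 (ν ⟨x, hx⟩)
  funext j
  have h1 := congrFun hx0 ⟨j, j.2.trans_le hcon⟩
  have h2 := congrFun (hG' ⟨x, hx⟩) ⟨j, j.2.trans_le hcon⟩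
  have h3 := congrFun (hG' ⟨-x, hx'⟩) ⟨j, j.2.trans_le hcon⟩
  simp only [F', ContinuousMap.coe_mk, dif_pos j.2] at h2 h3
  rw [e, hodd] at h3
  simp only [Pi.sub_apply, Pi.zero_apply, Pi.neg_apply, Fin.eta] at h1 h2 h3 ⊢
  linarith

/-- the antipodal action -/
@[reducible] noncomputable def sphAct (d : ℕ) : MulAction ℤˣ (Sph d) where
  smul u x := if u = 1 then x else -x
  one_smul x := if_pos rfl
  mul_smul u v x := by
    change (if u * v = 1 then x else -x)
      = if u = 1 then (if v = 1 then x else -x) else -(if v = 1 then x else -x)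
    rcases Int.units_eq_one_or u with rfl | rfl <;> rcases Int.units_eq_one_or v with rfl | rfl <;>
      simp

lemma cover_mk (d : ℕ) : IsCoveringMap (Quotient.mk (antipodal d)) := by
  let := sphAct d
  have hs : ∀ (u : ℤˣ) (x : Sph d), u • x = if u = 1 then x else -x := fun _ _ => rfl
  have : IsQuotientCoveringMap (Quotient.mk (antipodal d)) ℤˣ :=
    { toIsQuotientMap := isQuotientMap_quotient_mk'
      continuous_const_smul := fun u => by
        simp only [hs]
        split_ifs
        · exact continuous_id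
        · exact continuous_neg
      apply_eq_iff_mem_orbit := by
        intro x y
        rw [Quotient.eq]
        constructor
        · rintro (h | h)
          · exact ⟨1, by simp [h]⟩
          · exact ⟨-1, by simp [hs, h]⟩
        · rintro ⟨u, hu⟩
          simp only [hs] at hu
          split_ifs at hu
          · exact Or.inl hu.symm
          · exact Or.inr hu.symm
      disjoint := fun e => by
        refine ⟨{x | 0 < inner ℝ e.1 x.1}, ?_, fun u hu => ?_⟩
        · refine (isOpen_lt continuous_const (by fun_prop)).mem_nhds ?_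
          change 0 < inner ℝ e.1 e.1
          rw [real_inner_self_eq_norm_sq, mem_sphere_zero_iff_norm.1 e.2]; norm_num
        · by_contra h
          obtain ⟨_, ⟨x, hx, rfl⟩, hx'⟩ := hu
          simp only [hs, if_neg h] at hx'
          have h1 : 0 < inner ℝ e.1 x.1 := hx
          have h2 : 0 < inner ℝ e.1 (-x.1) := hx'
          rw [inner_neg_right] at h2
          linarith }
  exact this.isCoveringMap

variable {n : ℕ} {K : AbstractSimplicialComplex (Fin n)}

lemma mem_real_of_le {y z : Fin n → ℝ} (hy : y ∈ realization K) (h0 : ∀ v, 0 ≤ z v)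
    (h1 : ∑ v, z v = 1) (h2 : ∀ v, z v ≠ 0 → y v ≠ 0) : z ∈ realization K := by
  classical
  obtain ⟨-, -, s, hs, hs'⟩ := hy
  refine ⟨h0, h1, univ.filter fun v => z v ≠ 0, ?_, fun v => by simp⟩
  refine (K.isRelLowerSet_faces hs).2 (fun v hv => (hs' v).2 (h2 v (mem_filter.1 hv).2)) ?_
  by_contra h
  rw [not_nonempty_iff_eq_empty, filter_eq_empty_iff] at h
  have : ∀ v, z v = 0 := fun v => not_not.1 (h (mem_univ v))
  simp [this] at h1

lemma seg_mem {y z : Fin n → ℝ} (hy : y ∈ realization K) (h0 : ∀ v, 0 ≤ z v)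
    (h1 : ∑ v, z v = 1) (h2 : ∀ v, z v ≠ 0 → y v ≠ 0) {t : ℝ} (ht0 : 0 ≤ t) (ht1 : t ≤ 1) :
    (fun v => (1 - t) * z v + t * y v) ∈ realization K := by
  refine mem_real_of_le hy (fun v => add_nonneg (mul_nonneg (by linarith) (h0 v))
    (mul_nonneg ht0 (hy.1 v))) ?_ fun v hv hyv => hv ?_
  · rw [sum_add_distrib, ← mul_sum, ← mul_sum, h1, hy.2.1]; ring
  · have : z v = 0 := by
      by_contra h
      exact h2 v h hyv
    rw [this, hyv]; ring

lemma single_sum (v : Fin n) : ∑ w, (Pi.single v 1 : Fin n → ℝ) w = 1 := by simp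

lemma single_nonneg' (v w : Fin n) : 0 ≤ (Pi.single v 1 : Fin n → ℝ) w := by
  rw [Pi.single_apply]; split_ifs <;> norm_num

/-- a continuous section of a covering over the open star of a vertex -/
lemma exists_section {S : Type*} [TopologicalSpace S] {q : S → realization K}
    (hq : IsCoveringMap q) (hsurj : Function.Surjective q) (v : Fin n) :
    ∃ σ : {y : realization K // 0 < y.1 v} → S, Continuous σ ∧ ∀ y, q (σ y) = y.1 := by
  have hv : (Pi.single v 1 : Fin n → ℝ) ∈ realization K :=
    ⟨single_nonneg' v, single_sum v, {v}, K.singleton_mem v, fun w => by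
      rw [Pi.single_apply]; simp⟩
  obtain ⟨e, he⟩ := hsurj ⟨_, hv⟩
  let Hm : C(unitInterval × {y : realization K // 0 < y.1 v}, realization K) :=
    ⟨fun p => ⟨fun w => (1 - (p.1 : ℝ)) * (Pi.single v 1 : Fin n → ℝ) w + (p.1 : ℝ) * p.2.1.1 w,
      seg_mem p.2.1.2 (single_nonneg' v) (single_sum v) (fun w hw => by
        rw [Pi.single_apply] at hw
        split_ifs at hw with h
        · rw [h]; exact p.2.2.ne'
        · exact absurd rfl hw) p.1.2.1 p.1.2.2⟩,
      Continuous.subtype_mk (continuous_pi fun w =>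
        ((continuous_const.sub (continuous_subtype_val.comp continuous_fst)).mul
          continuous_const).add ((continuous_subtype_val.comp continuous_fst).mul
            ((continuous_apply w).comp (continuous_subtype_val.comp
              (continuous_subtype_val.comp continuous_snd))))) _⟩
  have H0 : ∀ a, Hm (0, a) = q (ContinuousMap.const _ e a) := by
    intro a
    rw [ContinuousMap.const_apply, he]
    apply Subtype.ext
    funext w
    simp [Hm]
  refine ⟨fun y => hq.liftHomotopy Hm (ContinuousMap.const _ e) H0 (1, y), by fun_prop, fun y => ?_⟩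
  have := congrFun (hq.liftHomotopy_lifts Hm (ContinuousMap.const _ e) H0) (1, y)
  rw [Function.comp_apply] at this
  rw [this]
  apply Subtype.ext
  funext w
  simp [Hm]

theorem rp_bound {d : ℕ} (φ : realization K ≃ₜ RP d) (hn : 1 ≤ n) :
    (d : ℝ) < 26000 * Real.log (2 * n) * Real.log (2 * n) := by
  classical
  let q : Sph d → realization K := φ.symm ∘ Quotient.mk (antipodal d)
  have hq : IsCoveringMap q := (cover_mk d).homeomorph_comp φ.symm
  have hsurj : Function.Surjective q := φ.symm.surjective.comp Quotient.mk_surjective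
  have hfib : ∀ x y, q x = q y → x = y ∨ x = -y := fun x y h =>
    Quotient.exact (φ.symm.injective h)
  have hneg : ∀ x, q (-x) = q x := fun x =>
    congrArg φ.symm (Quotient.sound (Or.inr rfl : (antipodal d).r (-x) x))
  choose σ hσc hσ using exists_section hq hsurj
  have hin : ∀ x y : Sph d, q x = q y → inner ℝ x.1 y.1 = 1 ∧ x = y ∨ inner ℝ x.1 y.1 = -1 ∧ x = -y := by
    intro x y h
    have hy : inner ℝ y.1 y.1 = 1 := by
      rw [real_inner_self_eq_norm_sq, mem_sphere_zero_iff_norm.1 y.2]; norm_num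
    rcases hfib x y h with h | h
    · exact Or.inl ⟨by rw [h, hy], h⟩
    · refine Or.inr ⟨?_, h⟩
      rw [h]
      change inner ℝ (-y.1) y.1 = _
      rw [inner_neg_left, hy]
  -- the comparison signs
  let b : Fin n → Fin n → (Fin n → ℝ) → ℝ := fun v w y =>
    if h : y ∈ realization K ∧ 0 < y v ∧ 0 < y w then
      inner ℝ (σ v ⟨⟨y, h.1⟩, h.2.1⟩).1 (σ w ⟨⟨y, h.1⟩, h.2.2⟩).1 else 0
  have hb1 : ∀ v w y, y ∈ realization K ∧ 0 < y v ∧ 0 < y w → b v w y = 1 ∨ b v w y = -1 := by
    intro v w y h
    simp only [b, dif_pos h]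
    rcases hin _ _ ((hσ v ⟨⟨y, h.1⟩, h.2.1⟩).trans (hσ w ⟨⟨y, h.1⟩, h.2.2⟩).symm) with h | h
    · exact Or.inl h.1
    · exact Or.inr h.1
  have hbc : ∀ v w, ContinuousOn (b v w) {y | y ∈ realization K ∧ 0 < y v ∧ 0 < y w} := by
    intro v w
    rw [continuousOn_iff_continuous_domRestrict]
    have e : Set.domRestrict {y | y ∈ realization K ∧ 0 < y v ∧ 0 < y w} (b v w) = fun y =>
        inner ℝ (σ v ⟨⟨y.1, y.2.1⟩, y.2.2.1⟩).1 (σ w ⟨⟨y.1, y.2.1⟩, y.2.2.2⟩).1 := by
      funext y
      exact dif_pos y.2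
    rw [e]
    refine Continuous.inner (continuous_subtype_val.comp ((hσc v).comp ?_))
      (continuous_subtype_val.comp ((hσc w).comp ?_))
    · exact (continuous_subtype_val.subtype_mk _).subtype_mk _
    · exact (continuous_subtype_val.subtype_mk _).subtype_mk _
  let mid : Fin n → Fin n → Fin n → ℝ := fun v w u =>
    ((Pi.single v 1 : Fin n → ℝ) u + (Pi.single w 1 : Fin n → ℝ) u) / 2
  let a : Fin n → Fin n → ℝ := fun v w => b v w (mid v w)
  have ha1 : ∀ v w, |a v w| ≤ 1 := by
    intro v w
    by_cases h : mid v w ∈ realization K ∧ 0 < mid v w v ∧ 0 < mid v w w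
    · rcases hb1 v w _ h with h | h <;> simp [a, h]
    · simp only [a, b, dif_neg h]; simp
  have hba : ∀ v w y, y ∈ realization K ∧ 0 < y v ∧ 0 < y w → b v w y = a v w := by
    intro v w y h
    let γ : ℝ → Fin n → ℝ := fun t u => (1 - t) * mid v w u + t * y u
    have hm0 : ∀ u, 0 ≤ mid v w u := fun u =>
      div_nonneg (add_nonneg (single_nonneg' v u) (single_nonneg' w u)) two_pos.le
    have hmv : 0 < mid v w v := by
      have := single_nonneg' w v
      simp only [mid, Pi.single_eq_same]; linarith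
    have hmw : 0 < mid v w w := by
      have := single_nonneg' v w
      simp only [mid, Pi.single_eq_same]; linarith
    have hγ : ∀ t ∈ Set.Icc (0 : ℝ) 1, γ t ∈ realization K ∧ 0 < γ t v ∧ 0 < γ t w := by
      intro t ht
      have hpos : ∀ α β : ℝ, 0 < α → 0 < β → 0 < (1 - t) * α + t * β := by
        intro α β hα hβ
        rcases ht.1.eq_or_lt with h0 | h0
        · rw [← h0]; linarith
        · have := mul_nonneg (sub_nonneg.2 ht.2) hα.le
          have := mul_pos h0 hβ
          linarith
      refine ⟨seg_mem h.1 hm0 ?_ (fun u hu => ?_) ht.1 ht.2, hpos _ _ hmv h.2.1, hpos _ _ hmw h.2.2⟩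
      · simp only [mid]
        rw [← sum_div, sum_add_distrib, single_sum, single_sum]; norm_num
      · by_cases h1 : u = v
        · rw [h1]; exact h.2.1.ne'
        · by_cases h2 : u = w
          · rw [h2]; exact h.2.2.ne'
          · simp [mid, h1, h2] at hu
    have hc : ContinuousOn (fun t => b v w (γ t)) (Set.Icc (0 : ℝ) 1) :=
      (hbc v w).comp (Continuous.continuousOn (continuous_pi fun u => by fun_prop)) hγ
    have e0 : γ 0 = mid v w := by funext u; simp [γ]
    have e1 : γ 1 = y := by funext u; simp [γ]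
    have hne : ∀ t ∈ Set.Icc (0 : ℝ) 1, b v w (γ t) ≠ 0 := by
      intro t ht
      rcases hb1 v w _ (hγ t ht) with h | h <;> rw [h] <;> norm_num
    have h0 := hb1 v w _ (hγ 0 ⟨le_rfl, zero_le_one⟩)
    have h1 := hb1 v w _ (hγ 1 ⟨zero_le_one, le_rfl⟩)
    have i1 := intermediate_value_Icc zero_le_one hc
    have i2 := intermediate_value_Icc' zero_le_one hc
    simp only [a]
    rw [← e0, ← e1]
    rcases h0 with h0 | h0 <;> rcases h1 with h1 | h1
    · rw [h0, h1]
    · obtain ⟨t, ht, ht'⟩ := i2 (show (0 : ℝ) ∈ _ by simp only [h0, h1]; norm_num)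
      exact absurd ht' (hne t ht)
    · obtain ⟨t, ht, ht'⟩ := i1 (show (0 : ℝ) ∈ _ by simp only [h0, h1]; norm_num)
      exact absurd ht' (hne t ht)
    · rw [h0, h1]
  -- signed barycentric coordinates
  let s : Fin n → Sph d → ℝ := fun v x =>
    if h : 0 < (q x).1 v then inner ℝ x.1 (σ v ⟨q x, h⟩).1 else 0
  have hs1 : ∀ v x, 0 < (q x).1 v → s v x = 1 ∨ s v x = -1 := by
    intro v x h
    simp only [s, dif_pos h]
    rcases hin x _ (hσ v ⟨q x, h⟩).symm with h | h
    · exact Or.inl h.1
    · exact Or.inr h.1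
  have hsabs : ∀ v x, |s v x| ≤ 1 := by
    intro v x
    by_cases h : 0 < (q x).1 v
    · rcases hs1 v x h with h | h <;> simp [h]
    · simp only [s, dif_neg h]; simp
  have hsneg : ∀ v x, s v (-x) = -s v x := by
    intro v x
    by_cases h : 0 < (q x).1 v
    · have h' : 0 < (q (-x)).1 v := by rwa [hneg]
      simp only [s, dif_pos h, dif_pos h']
      have : (⟨q (-x), h'⟩ : {y : realization K // 0 < y.1 v}) = ⟨q x, h⟩ := Subtype.ext (hneg x)
      rw [this]
      change inner ℝ (-x.1) _ = _
      rw [inner_neg_left]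
    · have h' : ¬ 0 < (q (-x)).1 v := by rwa [hneg]
      simp only [s, dif_neg h, dif_neg h', neg_zero]
  have hsa : ∀ v w x, 0 < (q x).1 v → 0 < (q x).1 w → s w x * a w v * s v x = 1 := by
    intro v w x hv hw
    rw [← hba w v (q x).1 ⟨(q x).2, hw, hv⟩]
    simp only [s, b, dif_pos hv, dif_pos hw, dif_pos (And.intro (q x).2 (And.intro hw hv))]
    have hx : inner ℝ x.1 x.1 = 1 := by
      rw [real_inner_self_eq_norm_sq, mem_sphere_zero_iff_norm.1 x.2]; norm_num
    change inner ℝ x.1 (σ w ⟨q x, hw⟩).1 * inner ℝ (σ w ⟨q x, hw⟩).1 (σ v ⟨q x, hv⟩).1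
      * inner ℝ x.1 (σ v ⟨q x, hv⟩).1 = 1
    have hv' := hfib _ x (hσ v ⟨q x, hv⟩)
    have hw' := hfib _ x (hσ w ⟨q x, hw⟩)
    have hng : (-x).1 = -x.1 := rfl
    rcases hv' with hv' | hv' <;> rcases hw' with hw' | hw' <;> rw [hv', hw'] <;>
      simp only [hng, inner_neg_left, inner_neg_right, hx] <;> norm_num
  have hqc : ∀ v, Continuous fun x => (q x).1 v := fun v =>
    (continuous_apply v).comp (continuous_subtype_val.comp hq.continuous)
  have hFc : ∀ v, Continuous fun x => (q x).1 v * s v x := by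
    intro v
    rw [continuous_iff_continuousAt]
    intro x
    rcases ((q x).2.1 v).eq_or_lt with h | h
    · have h1 : Tendsto (fun x => (q x).1 v) (𝓝 x) (𝓝 0) := by
        rw [h]; exact (hqc v).tendsto x
      have h2 : Tendsto (fun x => (q x).1 v * s v x) (𝓝 x) (𝓝 0) := by
        refine squeeze_zero_norm (fun y => ?_) h1
        rw [Real.norm_eq_abs, abs_mul, abs_of_nonneg ((q y).2.1 v)]
        exact mul_le_of_le_one_right ((q y).2.1 v) (hsabs v y)
      rw [ContinuousAt, ← h, zero_mul]
      exact h2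
    · have hO : IsOpen {x : Sph d | 0 < (q x).1 v} := isOpen_lt continuous_const (hqc v)
      have hc : ContinuousOn (s v) {x : Sph d | 0 < (q x).1 v} := by
        rw [continuousOn_iff_continuous_domRestrict]
        have e : Set.domRestrict {x : Sph d | 0 < (q x).1 v} (s v) = fun x =>
            inner ℝ x.1.1 (σ v ⟨q x.1, x.2⟩).1 := by
          funext y
          exact dif_pos y.2
        rw [e]
        refine Continuous.inner (continuous_subtype_val.comp continuous_subtype_val)
          (continuous_subtype_val.comp ((hσc v).comp ?_))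
        exact (hq.continuous.comp continuous_subtype_val).subtype_mk _
      exact (hqc v).continuousAt.mul (hc.continuousAt (hO.mem_nhds h))
  let sg : Bool → ℝ := fun ε => if ε then 1 else -1
  have hsg : ∀ ε, sg (!ε) = -sg ε := by intro ε; cases ε <;> simp [sg]
  let τ : Fin n × Bool ≃ Fin n × Bool :=
    { toFun := fun p => (p.1, !p.2)
      invFun := fun p => (p.1, !p.2)
      left_inv := fun p => by simp
      right_inv := fun p => by simp }
  let A : Fin n × Bool → Fin n × Bool → ℝ := fun h e => sg h.2 * a h.1 e.1 * sg e.2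
  have hA : ∀ h e, |A h e| ≤ 1 := by
    intro h e
    have : ∀ ε, |sg ε| = 1 := by intro ε; cases ε <;> simp [sg]
    simp only [A, abs_mul, this, one_mul, mul_one]
    exact ha1 _ _
  have hcard : Fintype.card (Fin n × Bool) = 2 * n := by simp [mul_comm]
  obtain ⟨k, hk, G, hGc, hGo, hG0⟩ := core (Fin n × Bool) (Fin n × Bool) A hA τ τ
    (fun h e => by
      change sg h.2 * a h.1 e.1 * sg (!e.2) = -(sg h.2 * a h.1 e.1 * sg e.2)
      rw [hsg]; ring)
    (fun h e => by
      change sg (!h.2) * a h.1 e.1 * sg e.2 = -(sg h.2 * a h.1 e.1 * sg e.2)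
      rw [hsg]; ring) (by omega) (by omega)
  let μ : Sph d → Fin n × Bool → ℝ := fun x e =>
    ((q x).1 e.1 + sg e.2 * ((q x).1 e.1 * s e.1 x)) / 2
  have hμc : Continuous μ := continuous_pi fun e =>
    ((hqc e.1).add (continuous_const.mul (hFc e.1))).div_const 2
  have hlt := bu_sphere (fun x => G (μ x)) (hGc.comp hμc) (fun x => by
    rw [← hGo]
    congr 1
    funext e
    change _ = ((q x).1 e.1 + sg (!e.2) * ((q x).1 e.1 * s e.1 x)) / 2
    simp only [μ]
    rw [hneg, hsneg, hsg]; ring) (fun x => by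
    refine hG0 _ (fun e => ?_) ?_ ?_
    · have h1 := (q x).2.1 e.1
      have h2 := abs_le.1 (hsabs e.1 x)
      simp only [μ, sg]
      split_ifs <;> nlinarith
    · rw [Fintype.sum_prod_type, ← (q x).2.2.1]
      refine sum_congr rfl fun v _ => ?_
      simp only [μ, sg, Fintype.sum_bool]
      simp; ring
    · obtain ⟨w, hw⟩ : ∃ w, 0 < (q x).1 w := by
        by_contra hcon
        push Not at hcon
        have h1 : ∑ v, (q x).1 v ≤ 0 := sum_nonpos fun v _ => hcon v
        rw [(q x).2.2.1] at h1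
        linarith
      obtain ⟨η, hη⟩ : ∃ η, sg η = s w x := by
        rcases hs1 w x hw with h | h
        · exact ⟨true, by simp [sg, h]⟩
        · exact ⟨false, by simp [sg, h]⟩
      refine ⟨(w, η), ?_⟩
      rw [Fintype.sum_prod_type, ← (q x).2.2.1]
      refine sum_congr rfl fun v _ => ?_
      have e : ∑ ε, A (w, η) (v, ε) * μ x (v, ε) = (q x).1 v * (s w x * a w v * s v x) := by
        simp only [A, μ, Fintype.sum_bool, hη]
        simp [sg]; ring
      rw [e]
      rcases ((q x).2.1 v).eq_or_lt with h | h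
      · rw [← h, zero_mul]
      · rw [hsa v w x h hw, mul_one])
  rw [hcard] at hk
  push_cast at hk
  have : (d : ℝ) < k + 1 := by exact_mod_cast hlt
  linarith

theorem rp_main {d : ℕ} (hd : 1 ≤ d) (φ : realization K ≃ₜ RP d) :
    Real.exp (1 / 323 * √(d : ℝ)) ≤ n := by
  have hn : 2 ≤ n := by
    let x : Sph d := ⟨EuclideanSpace.single 0 1, by simp⟩
    let y : Sph d := ⟨EuclideanSpace.single ⟨1, by omega⟩ 1, by simp⟩
    have hxy : Quotient.mk (antipodal d) x ≠ Quotient.mk (antipodal d) y := by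
      intro h
      have hne : (0 : Fin (d + 1)) ≠ ⟨1, by omega⟩ := by simp [Fin.ext_iff]
      rcases Quotient.exact h with h | h
      · have := congrArg (fun z : Sph d => z.1 0) h
        simp [x, y, hne] at this
      · have := congrArg (fun z : Sph d => z.1 0) h
        simp [x, y, hne] at this
    by_contra hcon
    apply hxy
    apply φ.symm.injective
    generalize φ.symm (Quotient.mk (antipodal d) x) = p
    generalize φ.symm (Quotient.mk (antipodal d) y) = p'
    apply Subtype.ext
    funext v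
    have hsub : Subsingleton (Fin n) := Fin.subsingleton_iff_le_one.2 (by omega)
    have h1 := p.2.2.1
    have h2 := p'.2.2.1
    rw [Fintype.sum_subsingleton _ v] at h1 h2
    rw [h1, h2]
  have h1 := rp_bound φ (by omega)
  have hn' : (2 : ℝ) ≤ n := by exact_mod_cast hn
  have h2 : Real.log (2 * n) ≤ 2 * Real.log n := by
    rw [Real.log_mul two_ne_zero (by linarith)]
    linarith [Real.log_le_log two_pos hn']
  have h3 : 0 ≤ Real.log (2 * n) := Real.log_nonneg (by linarith)
  have h4 : (d : ℝ) ≤ (323 * Real.log n) ^ 2 := by nlinarith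
  have h5 : √(d : ℝ) ≤ 323 * Real.log n := Real.sqrt_le_iff.2 ⟨by linarith, h4⟩
  rw [← Real.le_log_iff_exp_le (by linarith)]
  linarith

end Pool.Agent.H519Z.FLM
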